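import Mathlib

set_option autoImplicit false

namespace Pool.Agent.Helper35_Wr

open Polynomial Matrix

section border

variable {F : Type*} [Field F]

/-- Schur complement for a matrix on `Fin (m+k)`. -/
lemma det_border {m k : ℕ} (M : Matrix (Fin (m + k)) (Fin (m + k)) F)
    (hA : (M.submatrix (Fin.castAdd k) (Fin.castAdd k)).det ≠ 0) :
    M.det = (M.submatrix (Fin.castAdd k) (Fin.castAdd k)).det *
      ((M.submatrix (Fin.natAdd m) (Fin.natAdd m)) -
        (M.submatrix (Fin.natAdd m) (Fin.castAdd k)) *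
          ((M.submatrix (Fin.castAdd k) (Fin.castAdd k))⁻¹) *
          (M.submatrix (Fin.castAdd k) (Fin.natAdd m))).det := by
  set A := M.submatrix (Fin.castAdd k) (Fin.castAdd k) with hAdef
  have hM : M.submatrix finSumFinEquiv finSumFinEquiv =
      fromBlocks A (M.submatrix (Fin.castAdd k) (Fin.natAdd m))
        (M.submatrix (Fin.natAdd m) (Fin.castAdd k)) (M.submatrix (Fin.natAdd m) (Fin.natAdd m)) := by
    ext i j
    rcases i with i | i <;> rcases j with j | j <;> simp [A]
  have h1 : M.det = (M.submatrix finSumFinEquiv finSumFinEquiv).det := by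
    rw [det_submatrix_equiv_self]
  have : Invertible A := invertibleOfIsUnitDet A (isUnit_iff_ne_zero.mpr hA)
  rw [h1, hM, det_fromBlocks₁₁, invOf_eq_nonsing_inv]

end border

section wr

variable {K : Type*} [Field K]

/-- Wronskian of `f 0, ..., f (m-1)`. -/
noncomputable def W (f : ℕ → K[X]) (m : ℕ) : K[X] :=
  (Matrix.of fun i j : Fin m => derivative^[(i : ℕ)] (f j)).det

/-- Bordered Wronskian determinant: columns `f 0, ..., f (m-1), g`, rows the derivatives of order
`0, ..., m-1, r`. -/
noncomputable def G (f : ℕ → K[X]) (m : ℕ) (g : K[X]) (r : ℕ) : K[X] :=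
  (Matrix.of fun i j : Fin (m + 1) =>
    derivative^[if (i : ℕ) < m then (i : ℕ) else r] (if (j : ℕ) < m then f j else g)).det

lemma W_succ (f : ℕ → K[X]) (m : ℕ) : W f (m + 1) = G f m (f m) m := by
  unfold W G
  congr 1
  ext1 i j
  simp only [of_apply]
  have h1 : (if (i : ℕ) < m then (i : ℕ) else m) = i := by
    split_ifs with h
    · rfl
    · omega
  have h2 : (if (j : ℕ) < m then f j else f m) = f j := by
    split_ifs with h
    · rfl
    · have : (j : ℕ) = m := by omega
      rw [this]
  rw [h1, h2]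

lemma W_zero (f : ℕ → K[X]) : W f 0 = 1 := by
  unfold W; simp

/-- Doubly bordered determinant. -/
noncomputable def G2 (f : ℕ → K[X]) (m : ℕ) (h g : K[X]) (r s : ℕ) : K[X] :=
  (Matrix.of fun i j : Fin (m + 2) =>
    derivative^[if (i : ℕ) < m then (i : ℕ) else if (i : ℕ) = m then r else s]
      (if (j : ℕ) < m then f j else if (j : ℕ) = m then h else g)).det

/-- The matrix of `W f m` over the fraction field. -/
noncomputable def AM (f : ℕ → K[X]) (m : ℕ) : Matrix (Fin m) (Fin m) (FractionRing K[X]) :=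
  Matrix.of fun i j : Fin m => algebraMap K[X] (FractionRing K[X]) (derivative^[(i : ℕ)] (f j))

/-- The Schur complement entry. -/
noncomputable def E (f : ℕ → K[X]) (m : ℕ) (r : ℕ) (g : K[X]) : FractionRing K[X] :=
  algebraMap K[X] (FractionRing K[X]) (derivative^[r] g) -
    ∑ j : Fin m, (∑ i : Fin m, algebraMap K[X] (FractionRing K[X]) (derivative^[r] (f i)) *
      ((AM f m)⁻¹ i j)) * algebraMap K[X] (FractionRing K[X]) (derivative^[(j : ℕ)] g)

lemma AM_det (f : ℕ → K[X]) (m : ℕ) : (AM f m).det = algebraMap K[X] (FractionRing K[X]) (W f m) := by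
  unfold W AM
  rw [RingHom.map_det]
  congr 1

lemma AM_det_ne {f : ℕ → K[X]} {m : ℕ} (hW : W f m ≠ 0) : (AM f m).det ≠ 0 := by
  rw [AM_det]
  intro h
  apply hW
  exact (map_eq_zero_iff _ (IsFractionRing.injective K[X] (FractionRing K[X]))).mp h

lemma G_eq {f : ℕ → K[X]} {m : ℕ} (hW : W f m ≠ 0) (g : K[X]) (r : ℕ) :
    algebraMap K[X] (FractionRing K[X]) (G f m g r) =
      algebraMap K[X] (FractionRing K[X]) (W f m) * E f m r g := by
  set φ := algebraMap K[X] (FractionRing K[X]) with hφ
  unfold G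
  rw [RingHom.map_det]
  set M : Matrix (Fin (m + 1)) (Fin (m + 1)) (FractionRing K[X]) := φ.mapMatrix (Matrix.of fun i j : Fin (m + 1) =>
    derivative^[if (i : ℕ) < m then (i : ℕ) else r] (if (j : ℕ) < m then f j else g)) with hM
  have hA : M.submatrix (Fin.castAdd 1) (Fin.castAdd 1) = AM f m := by
    ext i j
    simp [hM, AM, hφ]
  have h1 := det_border M (by rw [hA]; exact AM_det_ne hW)
  rw [h1, hA, AM_det]
  congr 1
  rw [det_fin_one]
  unfold E
  rw [Matrix.sub_apply, Matrix.mul_apply]
  simp only [Matrix.mul_apply, submatrix_apply]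
  simp [hM, hφ]

lemma G2_eq {f : ℕ → K[X]} {m : ℕ} (hW : W f m ≠ 0) (h g : K[X]) (r s : ℕ) :
    algebraMap K[X] (FractionRing K[X]) (G2 f m h g r s) =
      algebraMap K[X] (FractionRing K[X]) (W f m) *
        (E f m r h * E f m s g - E f m r g * E f m s h) := by
  set φ := algebraMap K[X] (FractionRing K[X]) with hφ
  unfold G2
  rw [RingHom.map_det]
  set M : Matrix (Fin (m + 2)) (Fin (m + 2)) (FractionRing K[X]) := φ.mapMatrix (Matrix.of fun i j : Fin (m + 2) =>
    derivative^[if (i : ℕ) < m then (i : ℕ) else if (i : ℕ) = m then r else s]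
      (if (j : ℕ) < m then f j else if (j : ℕ) = m then h else g)) with hM
  have hA : M.submatrix (Fin.castAdd 2) (Fin.castAdd 2) = AM f m := by
    ext i j
    simp [hM, AM, hφ]
  have h1 := det_border M (by rw [hA]; exact AM_det_ne hW)
  rw [h1, hA, AM_det]
  congr 1
  rw [det_fin_two]
  unfold E
  simp only [Matrix.sub_apply, Matrix.mul_apply, submatrix_apply]
  simp [hM, hφ]

/-- The Wronskian form of the Desnanot-Jacobi identity. -/
lemma star2 {f : ℕ → K[X]} {m : ℕ} (hW : W f m ≠ 0) (h g : K[X]) (r s : ℕ) :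
    G f m h r * G f m g s - G f m g r * G f m h s = W f m * G2 f m h g r s := by
  apply IsFractionRing.injective K[X] (FractionRing K[X])
  rw [map_sub, map_mul, map_mul, map_mul, G_eq hW, G_eq hW, G_eq hW, G_eq hW, G2_eq hW]
  ring

lemma G_succ_eq_G2 (f : ℕ → K[X]) (m : ℕ) (g : K[X]) (r : ℕ) :
    G f (m + 1) g r = G2 f m (f m) g m r := by
  unfold G G2
  congr 1
  ext1 i j
  simp only [of_apply]
  have h1 : (if (i : ℕ) < m + 1 then (i : ℕ) else r) =
      (if (i : ℕ) < m then (i : ℕ) else if (i : ℕ) = m then m else r) := by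
    split_ifs <;> omega
  have h2 : (if (j : ℕ) < m + 1 then f j else g) =
      (if (j : ℕ) < m then f j else if (j : ℕ) = m then f m else g) := by
    by_cases h3 : (j : ℕ) < m
    · rw [if_pos h3, if_pos (by omega)]
    · by_cases h4 : (j : ℕ) = m
      · rw [if_neg h3, if_pos h4, if_pos (by omega), h4]
      · rw [if_neg h3, if_neg h4, if_neg (by omega)]
  rw [h1, h2]

end wr

end Pool.Agent.Helper35_Wr
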