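import Mathlib
import Pool.Agent.Helper35_Wr.Basic

set_option autoImplicit false

namespace Pool.Agent.Helper35_Wr

open Polynomial Matrix

variable {K : Type*} [Field K]

lemma derivative_det_col {n : ℕ} (M : Matrix (Fin n) (Fin n) K[X]) :
    derivative M.det = ∑ i, (M.updateCol i (fun k => derivative (M k i))).det := by
  rw [det_apply, derivative_sum]
  have h1 : ∀ i, (M.updateCol i (fun k => derivative (M k i))).det =
      ∑ σ : Equiv.Perm (Fin n), Equiv.Perm.sign σ •
        ((∏ j ∈ Finset.univ.erase i, M (σ j) j) * derivative (M (σ i) i)) := by
    intro i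
    rw [det_apply]
    apply Finset.sum_congr rfl
    intro σ _
    congr 1
    rw [← Finset.mul_prod_erase _ _ (Finset.mem_univ i), mul_comm]
    congr 1
    · apply Finset.prod_congr rfl
      intro j hj
      rw [updateCol_ne (Finset.ne_of_mem_erase hj)]
    · rw [updateCol_self]
  simp_rw [h1]
  rw [Finset.sum_comm]
  apply Finset.sum_congr rfl
  intro σ _
  rw [derivative_smul, derivative_prod_finset, Finset.smul_sum]

lemma derivative_det_row {n : ℕ} (M : Matrix (Fin n) (Fin n) K[X]) :
    derivative M.det = ∑ i, (M.updateRow i (fun k => derivative (M i k))).det := by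
  rw [← det_transpose, derivative_det_col]
  apply Finset.sum_congr rfl
  intro i _
  rw [← det_transpose, updateCol_transpose, transpose_transpose]
  rfl

lemma derivative_G (f : ℕ → K[X]) (m : ℕ) (g : K[X]) :
    derivative (G f m g m) = G f m g (m + 1) := by
  unfold G
  rw [derivative_det_row]
  rw [Finset.sum_eq_single (Fin.last m)]
  · congr 1
    ext1 i j
    by_cases hi : i = Fin.last m
    · subst hi
      rw [updateRow_self]
      simp only [of_apply, Fin.val_last, lt_irrefl, if_false]
      rw [← Function.iterate_succ_apply' (f := derivative)]
    · rw [updateRow_ne hi]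
      simp only [of_apply]
      have : (i : ℕ) < m := by
        have h1 : (i : ℕ) ≠ m := fun h => hi (Fin.ext h)
        omega
      simp only [this, if_true]
  · intro i _ hi
    have him : (i : ℕ) < m := by
      have h1 : (i : ℕ) ≠ m := fun h => hi (Fin.ext h)
      omega
    -- rows i and i+1 coincide
    apply det_zero_of_row_eq (i := i) (j := ⟨(i : ℕ) + 1, by omega⟩)
    · intro h
      have := congrArg Fin.val h
      simp at this
    · funext j
      rw [updateRow_self, updateRow_ne]
      · simp only [of_apply, him, if_true]
        rw [← Function.iterate_succ_apply' (f := derivative)]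
        split_ifs with h1 <;> first
          | rfl
          | (have : (i : ℕ) + 1 = m := by omega
             simp [this])
      · intro h
        have := congrArg Fin.val h
        simp at this
  · intro h; exact absurd (Finset.mem_univ _) h

lemma derivative_W_succ (f : ℕ → K[X]) (m : ℕ) :
    derivative (W f (m + 1)) = G f m (f m) (m + 1) := by
  rw [W_succ, derivative_G]

/-- The basic differential identity between Wronskians. -/
theorem star {f : ℕ → K[X]} {m : ℕ} (hW : W f m ≠ 0) (g : K[X]) :
    W f (m + 1) * derivative (G f m g m) - derivative (W f (m + 1)) * G f m g m =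
      W f m * G f (m + 1) g (m + 1) := by
  rw [derivative_G, derivative_W_succ, W_succ, G_succ_eq_G2, ← star2 hW]
  ring

end Pool.Agent.Helper35_Wr
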