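import Mathlib
import Pool.Agent.Helper35_Wr.Deriv

set_option autoImplicit false

namespace Pool.Agent.Helper35_Wr

open Polynomial Matrix

variable {K : Type*} [Field K]

lemma G_congr {f f' : ℕ → K[X]} {m : ℕ} (h : ∀ j < m, f j = f' j) (g : K[X]) (r : ℕ) :
    G f m g r = G f' m g r := by
  unfold G
  congr 1
  ext1 i j
  simp only [of_apply]
  by_cases hj : (j : ℕ) < m
  · rw [if_pos hj, if_pos hj, h _ hj]
  · rw [if_neg hj, if_neg hj]

lemma W_congr {f f' : ℕ → K[X]} {m : ℕ} (h : ∀ j < m, f j = f' j) : W f m = W f' m := by
  unfold W
  congr 1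
  ext1 i j
  simp only [of_apply]
  rw [h _ j.2]

lemma G_eq_updateCol (f : ℕ → K[X]) (m : ℕ) (g : K[X]) (r : ℕ) :
    G f m g r = ((Matrix.of fun i j : Fin (m + 1) =>
      derivative^[if (i : ℕ) < m then (i : ℕ) else r] (if (j : ℕ) < m then f j else 0)).updateCol
        (Fin.last m) (fun i => derivative^[if (i : ℕ) < m then (i : ℕ) else r] g)).det := by
  unfold G
  congr 1
  ext1 i j
  by_cases hj : j = Fin.last m
  · subst hj
    rw [updateCol_self]
    simp
  · rw [updateCol_ne hj]
    have h1 : (j : ℕ) < m := by
      have : (j : ℕ) ≠ m := fun h => hj (Fin.ext h)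
      omega
    simp [h1]

lemma G_sub (f : ℕ → K[X]) (m : ℕ) (g h : K[X]) (c : K) (r : ℕ) :
    G f m (g - C c * h) r = G f m g r - C c * G f m h r := by
  rw [G_eq_updateCol, G_eq_updateCol f m g, G_eq_updateCol f m h]
  have h1 : (fun i : Fin (m + 1) => derivative^[if (i : ℕ) < m then (i : ℕ) else r] (g - C c * h)) =
      (fun i : Fin (m + 1) => derivative^[if (i : ℕ) < m then (i : ℕ) else r] g) +
        (-C c) • (fun i : Fin (m + 1) => derivative^[if (i : ℕ) < m then (i : ℕ) else r] h) := by
    funext i
    simp only [Pi.add_apply, Pi.smul_apply, smul_eq_mul]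
    rw [iterate_derivative_sub, iterate_derivative_C_mul]
    ring
  rw [h1, det_updateCol_add, det_updateCol_smul]
  ring

section charzero

variable [CharZero K]

lemma natDegree_eq_of_wr {A B : K[X]} (hA : A ≠ 0) (hB : B ≠ 0)
    (h : derivative A * B = A * derivative B) : A.natDegree = B.natDegree := by
  rcases Nat.eq_zero_or_pos A.natDegree with ha | ha
  · rw [eq_C_of_natDegree_eq_zero ha, derivative_C, zero_mul] at h
    have hA0 : C (A.coeff 0) ≠ 0 := by
      rw [← eq_C_of_natDegree_eq_zero ha]; exact hA
    have h1 : derivative B = 0 := by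
      rcases mul_eq_zero.mp h.symm with h2 | h2
      · exact absurd h2 hA0
      · exact h2
    rw [ha, (derivative_eq_zero.mp h1)]
  · rcases Nat.eq_zero_or_pos B.natDegree with hb | hb
    · rw [eq_C_of_natDegree_eq_zero hb, derivative_C, mul_zero] at h
      have hB0 : C (B.coeff 0) ≠ 0 := by
        rw [← eq_C_of_natDegree_eq_zero hb]; exact hB
      have h1 : derivative A = 0 := by
        rcases mul_eq_zero.mp h with h2 | h2
        · exact h2
        · exact absurd h2 hB0
      rw [hb, (derivative_eq_zero.mp h1)]
    · have h1 : (derivative A * B).coeff ((A.natDegree - 1) + B.natDegree) =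
          (derivative A).coeff (A.natDegree - 1) * B.coeff B.natDegree :=
        coeff_mul_add_eq_of_natDegree_le (natDegree_derivative_le A) le_rfl
      have h2 : (A * derivative B).coeff (A.natDegree + (B.natDegree - 1)) =
          A.coeff A.natDegree * (derivative B).coeff (B.natDegree - 1) :=
        coeff_mul_add_eq_of_natDegree_le le_rfl (natDegree_derivative_le B)
      have h3 : (A.natDegree - 1) + B.natDegree = A.natDegree + (B.natDegree - 1) := by omega
      rw [h3, h, h2, coeff_derivative, coeff_derivative] at h1
      have e1 : A.natDegree - 1 + 1 = A.natDegree := by omega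
      have e2 : B.natDegree - 1 + 1 = B.natDegree := by omega
      rw [e1, e2, coeff_natDegree, coeff_natDegree] at h1
      have hlA := leadingCoeff_ne_zero.mpr hA
      have hlB := leadingCoeff_ne_zero.mpr hB
      have h4 : ((B.natDegree - 1 : ℕ) : K) + 1 = B.natDegree := by
        have : ((B.natDegree - 1 + 1 : ℕ) : K) = B.natDegree := by rw [e2]
        rw [← this]; push_cast; ring
      have h5 : ((A.natDegree - 1 : ℕ) : K) + 1 = A.natDegree := by
        have : ((A.natDegree - 1 + 1 : ℕ) : K) = A.natDegree := by rw [e1]
        rw [← this]; push_cast; ring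
      rw [h4, h5] at h1
      have h6 : (A.leadingCoeff * B.leadingCoeff) * ((B.natDegree : K) - A.natDegree) = 0 := by
        linear_combination h1
      rcases mul_eq_zero.mp h6 with h7 | h7
      · exact absurd h7 (mul_ne_zero hlA hlB)
      · have : (B.natDegree : K) = A.natDegree := sub_eq_zero.mp h7
        exact_mod_cast this.symm

/-- If `(A/B)' = 0` then `A = c B`. -/
lemma exists_const_of_wr {A B : K[X]} (hB : B ≠ 0)
    (h : derivative A * B = A * derivative B) : ∃ c : K, A = C c * B := by
  by_cases hA : A = 0
  · exact ⟨0, by simp [hA]⟩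
  · refine ⟨A.leadingCoeff / B.leadingCoeff, ?_⟩
    rw [← sub_eq_zero]
    by_contra hR
    set R := A - C (A.leadingCoeff / B.leadingCoeff) * B with hRdef
    have hRw : derivative R * B = R * derivative B := by
      rw [hRdef, derivative_sub, derivative_C_mul]
      linear_combination h
    have h1 := natDegree_eq_of_wr hR hB hRw
    have h2 := natDegree_eq_of_wr hA hB h
    have hlB := leadingCoeff_ne_zero.mpr hB
    have h3 : R.coeff B.natDegree = 0 := by
      rw [hRdef, coeff_sub, coeff_C_mul, coeff_natDegree, ← h2, coeff_natDegree]
      field_simp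
      ring
    rw [← h1, coeff_natDegree, leadingCoeff_eq_zero] at h3
    exact hR h3

/-- Linearly independent polynomials have nonzero Wronskian. -/
theorem W_ne_zero (m : ℕ) : ∀ f : ℕ → K[X], LinearIndependent K (fun j : Fin m => f j) → W f m ≠ 0 := by
  induction m using Nat.strong_induction_on with
  | _ m ih =>
    intro f hf
    rcases m with _ | _ | n
    · rw [W_zero]; exact one_ne_zero
    · have h0 : f 0 ≠ 0 := hf.ne_zero (0 : Fin 1)
      unfold W
      rw [det_fin_one]
      simpa using h0
    · intro hW
      have hsub : ∀ k, k ≤ n + 2 → LinearIndependent K (fun j : Fin k => f j) := by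
        intro k hk
        exact hf.comp (Fin.castLE hk) (Fin.castLE_injective hk)
      have hW1 : W f (n + 1) ≠ 0 := ih (n + 1) (by omega) f (hsub _ (by omega))
      have hW0 : W f n ≠ 0 := ih n (by omega) f (hsub _ (by omega))
      have hs := star hW0 (f (n + 1))
      rw [← W_succ f (n + 1), hW, mul_zero, sub_eq_zero] at hs
      obtain ⟨c, hc⟩ := exists_const_of_wr (A := G f n (f (n + 1)) n) hW1 (by
        rw [mul_comm, hs, mul_comm])
      rw [W_succ f n] at hc
      have h0 : G f n (f (n + 1) - C c * f n) n = 0 := by
        rw [G_sub, hc, sub_self]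
      set f' : ℕ → K[X] := Function.update f n (f (n + 1) - C c * f n) with hf'
      have hf'n : f' n = f (n + 1) - C c * f n := by rw [hf', Function.update_self]
      have hf'j : ∀ j, j ≠ n → f' j = f j := fun j hj => by rw [hf', Function.update_of_ne hj]
      apply ih (n + 1) (by omega) f' _
      · rw [W_succ, hf'n, ← h0]
        exact G_congr (fun j hj => hf'j j (by omega)) _ _
      · rw [Fintype.linearIndependent_iff]
        intro a ha
        rw [Fin.sum_univ_castSucc] at ha
        simp only [Fin.val_castSucc, Fin.val_last] at ha
        rw [hf'n] at ha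
        have ha2 : ∑ i : Fin n, a i.castSucc • f i = ∑ i : Fin n, a i.castSucc • f' i := by
          apply Finset.sum_congr rfl
          intro i _
          rw [hf'j i (by omega)]
        rw [← ha2] at ha
        -- build a relation among f 0, ..., f (n+1)
        have hrel := (Fintype.linearIndependent_iff.mp hf)
          (fun i : Fin (n + 2) => if h : (i : ℕ) < n then a ⟨i, by omega⟩ else
            if (i : ℕ) = n then -(c * a (Fin.last n)) else a (Fin.last n)) (by
          rw [Fin.sum_univ_castSucc, Fin.sum_univ_castSucc]
          simp only [Fin.val_castSucc, Fin.val_last, lt_irrefl, dite_false]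
          have e1 : ∀ i : Fin n, (if h : (i : ℕ) < n then a ⟨i, by omega⟩ else
            if (i : ℕ) = n then -(c * a (Fin.last n)) else a (Fin.last n)) = a i.castSucc := by
            intro i
            rw [dif_pos i.2]
            rfl
          have e2 : ∑ i : Fin n, (if h : (i : ℕ) < n then a ⟨i, by omega⟩ else
            if (i : ℕ) = n then -(c * a (Fin.last n)) else a (Fin.last n)) • f i
              = ∑ i : Fin n, a i.castSucc • f i := by
            apply Finset.sum_congr rfl
            intro i _
            rw [e1 i]
          rw [e2]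
          have e3 : ¬ (n + 1 < n) := by omega
          have e4 : ¬ (n + 1 = n) := by omega
          simp only [e3, e4, dite_false, if_true, if_false]
          rw [← ha, smul_sub, neg_smul, ← smul_eq_C_mul, smul_smul, mul_comm c]
          abel)
        have hlast : a (Fin.last n) = 0 := by
          have := hrel (Fin.last (n + 1))
          simp only [Fin.val_last] at this
          have e3 : ¬ (n + 1 < n) := by omega
          have e4 : ¬ (n + 1 = n) := by omega
          simpa [e3, e4] using this
        intro i
        by_cases hi : (i : ℕ) < n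
        · have := hrel ⟨i, by omega⟩
          simp only [hi, dite_true] at this
          exact this
        · have : i = Fin.last n := Fin.ext (by have := i.2; simp; omega)
          rw [this]; exact hlast

end charzero

end Pool.Agent.Helper35_Wr
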