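import Mathlib
import Pool.Agent.Helper35_Wr.Indep

set_option autoImplicit false

namespace Pool.Agent.Helper35_Wr

open Polynomial Matrix

variable {K : Type*} [Field K]

/-- Wronskian of a finite family. -/
noncomputable def Wr {m : ℕ} (v : Fin m → K[X]) : K[X] :=
  (Matrix.of fun i j : Fin m => derivative^[(i : ℕ)] (v j)).det

lemma W_eq_Wr (f : ℕ → K[X]) (m : ℕ) : W f m = Wr (fun j : Fin m => f j) := rfl

lemma iterate_derivative_mul_pow (h p : K[X]) (d : ℕ) : ∀ i : ℕ, i ≤ d →
    ∃ u : K[X], derivative^[i] (h * p ^ d) = p ^ (d - i) * u ∧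
      u.natDegree ≤ h.natDegree + i * p.natDegree := by
  intro i
  induction i with
  | zero =>
    intro _
    exact ⟨h, by simp [mul_comm], by simp⟩
  | succ i ih =>
    intro hi
    obtain ⟨u, hu, hdeg⟩ := ih (by omega)
    refine ⟨C ((d - i : ℕ) : K) * derivative p * u + p * derivative u, ?_, ?_⟩
    · rw [Function.iterate_succ_apply', hu, derivative_mul, derivative_pow]
      have e : d - i = (d - (i + 1)) + 1 := by omega
      rw [e, Nat.add_sub_cancel, pow_succ]
      ring
    · refine (natDegree_add_le _ _).trans (max_le ?_ ?_)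
      · refine (natDegree_mul_le).trans ?_
        have h1 : (C ((d - i : ℕ) : K) * derivative p).natDegree ≤ p.natDegree := by
          refine (natDegree_C_mul_le _ _).trans ((natDegree_derivative_le p).trans ?_)
          omega
        calc _ ≤ p.natDegree + (h.natDegree + i * p.natDegree) := add_le_add h1 hdeg
          _ = _ := by ring
      · refine (natDegree_mul_le).trans ?_
        have h1 : (derivative u).natDegree ≤ h.natDegree + i * p.natDegree :=
          (natDegree_derivative_le u).trans ((Nat.sub_le _ _).trans hdeg)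
        calc _ ≤ p.natDegree + (h.natDegree + i * p.natDegree) := add_le_add le_rfl h1
          _ = _ := by ring

lemma natDegree_det_le {m : ℕ} (A : Matrix (Fin m) (Fin m) K[X]) (b : Fin m → ℕ)
    (h : ∀ i j, (A i j).natDegree ≤ b j) : A.det.natDegree ≤ ∑ j, b j := by
  rw [det_apply]
  refine natDegree_sum_le_of_forall_le _ _ ?_
  intro σ _
  refine (natDegree_smul_le _ _).trans ?_
  refine (natDegree_prod_le _ _).trans ?_
  exact Finset.sum_le_sum fun j _ => h _ _

/-- Wronskian of powers: a high power of the product of the bases divides it, with a cofactor of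
controlled degree. -/
lemma Wr_powers {m : ℕ} (h p : Fin m → K[X]) (d : ℕ) (hd : m ≤ d + 1) :
    ∃ V : K[X], Wr (fun j => h j * p j ^ d) = (∏ j, p j) ^ (d + 1 - m) * V ∧
      V.natDegree ≤ ∑ j, ((h j).natDegree + (m - 1) * (p j).natDegree) := by
  have hu : ∀ (i j : Fin m), ∃ u : K[X], derivative^[(i : ℕ)] (h j * p j ^ d) = p j ^ (d - (i : ℕ)) * u ∧
      u.natDegree ≤ (h j).natDegree + (i : ℕ) * (p j).natDegree := by
    intro i j
    exact iterate_derivative_mul_pow (h j) (p j) d i (by have := i.2; omega)
  choose u hu1 hu2 using hu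
  refine ⟨(Matrix.of fun i j : Fin m => p j ^ (m - 1 - (i : ℕ)) * u i j).det, ?_, ?_⟩
  · unfold Wr
    rw [← Finset.prod_pow, ← det_mul_row]
    congr 1
    ext1 i j
    simp only [of_apply]
    rw [hu1, ← mul_assoc, ← pow_add]
    congr 2
    have := i.2
    omega
  · apply natDegree_det_le
    intro i j
    simp only [of_apply]
    refine (natDegree_mul_le).trans ?_
    have h1 : (p j ^ (m - 1 - (i : ℕ))).natDegree ≤ (m - 1 - (i : ℕ)) * (p j).natDegree :=
      natDegree_pow_le
    calc _ ≤ (m - 1 - (i : ℕ)) * (p j).natDegree + ((h j).natDegree + (i : ℕ) * (p j).natDegree) :=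
          add_le_add h1 (hu2 i j)
      _ = (h j).natDegree + ((m - 1 - (i : ℕ)) + (i : ℕ)) * (p j).natDegree := by ring
      _ = _ := by
        have := i.2
        have e : (m - 1 - (i : ℕ)) + (i : ℕ) = m - 1 := by omega
        rw [e]

/-- Replacing one column by a linear combination of all. -/
lemma Wr_update {m : ℕ} (v : Fin m → K[X]) (j : Fin m) (a : Fin m → K) :
    Wr (Function.update v j (∑ k, C (a k) * v k)) = C (a j) * Wr v := by
  unfold Wr
  have h := det_updateCol_sum (Matrix.of fun i j : Fin m => derivative^[(i : ℕ)] (v j)) j (fun k => C (a k))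
  rw [smul_eq_mul] at h
  rw [← h]
  congr 1
  ext1 i k
  by_cases hk : k = j
  · subst hk
    rw [updateCol_self]
    simp only [of_apply, Function.update_self, smul_eq_mul]
    rw [iterate_derivative_sum]
    apply Finset.sum_congr rfl
    intro l _
    rw [iterate_derivative_C_mul]
  · rw [updateCol_ne hk]
    simp only [of_apply]
    rw [Function.update_of_ne hk]

lemma Wr_natDegree_le {m : ℕ} (v : Fin m → K[X]) : (Wr v).natDegree ≤ ∑ j, (v j).natDegree := by
  apply natDegree_det_le
  intro i j
  simp only [of_apply]
  exact (natDegree_iterate_derivative _ _).trans (Nat.sub_le _ _)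

/-- `p` and `q` are not proportional (in particular both are nonzero). -/
def NonProp (p q : K[X]) : Prop := ∀ a b : K, C a * p = C b * q → a = 0 ∧ b = 0

end Pool.Agent.Helper35_Wr
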