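import Mathlib
import Pool.Agent.Helper35_Wr.Powers

set_option autoImplicit false

/-!
Wronskian criterion over the differential constants, over any field.
-/

namespace Pool.Agent.Helper35_Wr

open Polynomial Matrix

variable {K : Type*} [Field K]

lemma iterate_derivative_const_mul {c : K[X]} (hc : derivative c = 0) (g : K[X]) (r : ℕ) :
    derivative^[r] (c * g) = c * derivative^[r] g := by
  induction r with
  | zero => rfl
  | succ r ih =>
    rw [Function.iterate_succ_apply', ih, derivative_mul, hc, zero_mul, zero_add,
      Function.iterate_succ_apply']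

lemma derivative_mul_const {c e : K[X]} (hc : derivative c = 0) (he : derivative e = 0) :
    derivative (c * e) = 0 := by
  rw [derivative_mul, hc, he, zero_mul, mul_zero, add_zero]

/-- If `(A/B)' = 0` then `A/B` is a quotient of constants. -/
lemma exists_const_ratio {A B : K[X]} (hB : B ≠ 0) (h : derivative A * B = A * derivative B) :
    ∃ c₁ c₂ : K[X], derivative c₁ = 0 ∧ derivative c₂ = 0 ∧ c₁ ≠ 0 ∧ c₁ * A = c₂ * B := by
  obtain ⟨p, hp⟩ := CharP.exists K
  rcases CharP.char_is_prime_or_zero K p with hpp | hp0
  · have hp2 := hpp.two_le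
    obtain ⟨r, rfl⟩ : ∃ r, p = r + 1 := ⟨p - 1, by omega⟩
    refine ⟨B ^ (r + 1), A * B ^ r, ?_, ?_, pow_ne_zero _ hB, by ring⟩
    · rw [derivative_pow]
      have : ((r + 1 : ℕ) : K) = 0 := CharP.cast_eq_zero K (r + 1)
      rw [this, C_0, zero_mul, zero_mul]
    · rw [derivative_mul, derivative_pow]
      obtain ⟨s, rfl⟩ : ∃ s, r = s + 1 := ⟨r - 1, by omega⟩
      have h1 : ((s + 1 : ℕ) : K) = -1 := by
        have : ((s + 1 + 1 : ℕ) : K) = 0 := CharP.cast_eq_zero K (s + 1 + 1)
        rw [Nat.cast_succ] at this
        exact eq_neg_of_add_eq_zero_left this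
      rw [h1, Nat.add_sub_cancel, pow_succ]
      have h2 : C (-1 : K) = -1 := by simp
      rw [h2]
      linear_combination B ^ s * h
  · subst hp0
    have : CharZero K := CharP.charP_to_charZero K
    obtain ⟨c, hc⟩ := exists_const_of_wr hB h
    exact ⟨1, C c, derivative_one, derivative_C, one_ne_zero, by rw [one_mul, hc]⟩

lemma G_lin (f : ℕ → K[X]) (m : ℕ) (g h : K[X]) {c₁ c₂ : K[X]} (h₁ : derivative c₁ = 0)
    (h₂ : derivative c₂ = 0) (r : ℕ) :
    G f m (c₁ * g - c₂ * h) r = c₁ * G f m g r - c₂ * G f m h r := by
  rw [G_eq_updateCol, G_eq_updateCol f m g, G_eq_updateCol f m h]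
  have h1 : (fun i : Fin (m + 1) => derivative^[if (i : ℕ) < m then (i : ℕ) else r] (c₁ * g - c₂ * h)) =
      c₁ • (fun i : Fin (m + 1) => derivative^[if (i : ℕ) < m then (i : ℕ) else r] g) +
        (-c₂) • (fun i : Fin (m + 1) => derivative^[if (i : ℕ) < m then (i : ℕ) else r] h) := by
    funext i
    simp only [Pi.add_apply, Pi.smul_apply, smul_eq_mul]
    rw [iterate_derivative_sub, iterate_derivative_const_mul h₁, iterate_derivative_const_mul h₂]
    ring
  rw [h1, det_updateCol_add, det_updateCol_smul, det_updateCol_smul]
  ring

/-- linear independence over the constants of the derivation -/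
def IndepC (f : ℕ → K[X]) (m : ℕ) : Prop :=
  ∀ c : ℕ → K[X], (∀ j, derivative (c j) = 0) → ∑ j ∈ Finset.range m, c j * f j = 0 →
    ∀ j < m, c j = 0

lemma IndepC.mono {f : ℕ → K[X]} {m n : ℕ} (h : IndepC f m) (hnm : n ≤ m) : IndepC f n := by
  intro c hc hsum j hj
  have hc' : ∀ i, derivative ((fun i => if i < n then c i else 0) i) = 0 := by
    intro i
    by_cases hi : i < n
    · simp only [hi, if_true]
      exact hc i
    · simp only [hi, if_false]
      exact derivative_zero
  have hs' : ∑ i ∈ Finset.range m, (fun i => if i < n then c i else 0) i * f i = 0 := by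
    have h2 : ∑ i ∈ Finset.range n, c i * f i =
        ∑ i ∈ Finset.range n, (fun i => if i < n then c i else 0) i * f i := by
      apply Finset.sum_congr rfl
      intro i hi
      rw [Finset.mem_range] at hi
      simp only [hi, if_true]
    have h3 : ∑ i ∈ Finset.range n, (fun i => if i < n then c i else 0) i * f i =
        ∑ i ∈ Finset.range m, (fun i => if i < n then c i else 0) i * f i := by
      apply Finset.sum_subset (Finset.range_subset_range.mpr hnm)
      intro i _ hi
      rw [Finset.mem_range] at hi
      simp only [hi, if_false, zero_mul]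
    exact h3.symm.trans (h2.symm.trans hsum)
  have h1 := h _ hc' hs' j (by omega)
  simpa [hj] using h1

theorem W_ne_zero_of_indepC (m : ℕ) : ∀ f : ℕ → K[X], IndepC f m → W f m ≠ 0 := by
  induction m using Nat.strong_induction_on with
  | _ m ih =>
    intro f hf
    rcases m with _ | _ | n
    · rw [W_zero]; exact one_ne_zero
    · have h0 : f 0 ≠ 0 := by
        intro h0
        have := hf (fun _ => 1) (fun _ => derivative_one) (by simp [h0]) 0 (by omega)
        exact one_ne_zero this
      unfold W
      rw [det_fin_one]
      simpa using h0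
    · intro hW
      have hW1 : W f (n + 1) ≠ 0 := ih (n + 1) (by omega) f (hf.mono (by omega))
      have hW0 : W f n ≠ 0 := ih n (by omega) f (hf.mono (by omega))
      have hs := star hW0 (f (n + 1))
      rw [← W_succ f (n + 1), hW, mul_zero, sub_eq_zero] at hs
      obtain ⟨c₁, c₂, h₁, h₂, hc₁, hc⟩ := exists_const_ratio (A := G f n (f (n + 1)) n) hW1 (by
        rw [mul_comm, hs, mul_comm])
      rw [W_succ f n] at hc
      have h0 : G f n (c₁ * f (n + 1) - c₂ * f n) n = 0 := by
        rw [G_lin _ _ _ _ h₁ h₂, hc, sub_self]
      set f' : ℕ → K[X] := Function.update f n (c₁ * f (n + 1) - c₂ * f n) with hf'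
      have hf'n : f' n = c₁ * f (n + 1) - c₂ * f n := by rw [hf', Function.update_self]
      have hf'j : ∀ j, j ≠ n → f' j = f j := fun j hj => by rw [hf', Function.update_of_ne hj]
      apply ih (n + 1) (by omega) f' _
      · rw [W_succ, hf'n, ← h0]
        exact G_congr (fun j hj => hf'j j (by omega)) _ _
      · intro a ha hsum
        have hrel := hf (fun j => if j < n then a j else if j = n then -(a n * c₂) else
            if j = n + 1 then a n * c₁ else 0) (by
          intro j
          split_ifs
          · exact ha j
          · rw [derivative_neg, derivative_mul_const (ha n) h₂, neg_zero]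
          · exact derivative_mul_const (ha n) h₁
          · exact derivative_zero) (by
          rw [Finset.sum_range_succ, Finset.sum_range_succ]
          have e1 : ∑ x ∈ Finset.range n, (if x < n then a x else if x = n then -(a n * c₂) else
              if x = n + 1 then a n * c₁ else 0) * f x = ∑ x ∈ Finset.range n, a x * f' x := by
            apply Finset.sum_congr rfl
            intro x hx
            rw [Finset.mem_range] at hx
            rw [if_pos hx, hf'j x (by omega)]
          rw [e1]
          have e2 : ¬ (n < n) := by omega
          have e3 : ¬ (n + 1 < n) := by omega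
          have e4 : ¬ (n + 1 = n) := by omega
          simp only [e2, e3, e4, if_true, if_false]
          rw [Finset.sum_range_succ, hf'n] at hsum
          linear_combination hsum)
        have hlast : a n = 0 := by
          have := hrel (n + 1) (by omega)
          have e3 : ¬ (n + 1 < n) := by omega
          have e4 : ¬ (n + 1 = n) := by omega
          simp only [e3, e4, if_true, if_false] at this
          exact (mul_eq_zero.mp this).resolve_right hc₁
        intro j hj
        by_cases hjn : j < n
        · have := hrel j (by omega)
          simp only [hjn, if_true] at this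
          exact this
        · have : j = n := by omega
          rw [this]; exact hlast

/-- `Fin`-indexed version. -/
theorem Wr_ne_zero_of_indepC {m : ℕ} (v : Fin m → K[X])
    (hv : ∀ c : Fin m → K[X], (∀ j, derivative (c j) = 0) → ∑ j, c j * v j = 0 → ∀ j, c j = 0) :
    Wr v ≠ 0 := by
  set f : ℕ → K[X] := fun j => if h : j < m then v ⟨j, h⟩ else 0 with hf
  have h1 : (fun j : Fin m => f j) = v := by
    funext j
    simp [hf]
  have h2 := W_ne_zero_of_indepC m f (by
    intro c hc hsum j hj
    have := hv (fun i => c i) (fun i => hc i) (by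
      rw [← hsum, Finset.sum_range]
      apply Finset.sum_congr rfl
      intro i _
      rw [← h1]) ⟨j, hj⟩
    exact this)
  rwa [W_eq_Wr, h1] at h2

/-- Replacing a column by a linear combination over the constants. -/
lemma Wr_update_const {m : ℕ} (v : Fin m → K[X]) (j : Fin m) (a : Fin m → K[X])
    (ha : ∀ k, derivative (a k) = 0) :
    Wr (Function.update v j (∑ k, a k * v k)) = a j * Wr v := by
  unfold Wr
  have h := det_updateCol_sum (Matrix.of fun i j : Fin m => derivative^[(i : ℕ)] (v j)) j a
  rw [smul_eq_mul] at h
  rw [← h]
  congr 1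
  ext1 i k
  by_cases hk : k = j
  · subst hk
    rw [updateCol_self]
    simp only [of_apply, Function.update_self, smul_eq_mul]
    rw [iterate_derivative_sum]
    apply Finset.sum_congr rfl
    intro l _
    rw [iterate_derivative_const_mul (ha l)]
  · rw [updateCol_ne hk]
    simp only [of_apply]
    rw [Function.update_of_ne hk]

lemma Wr_update_mul {m : ℕ} (v : Fin m → K[X]) (j : Fin m) {c : K[X]} (hc : derivative c = 0)
    (u : K[X]) : Wr (Function.update v j (c * u)) = c * Wr (Function.update v j u) := by
  have e : ∀ u : K[X], (Matrix.of fun i k : Fin m => derivative^[(i : ℕ)] (Function.update v j u k)) =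
      (Matrix.of fun i k : Fin m => derivative^[(i : ℕ)] (v k)).updateCol j
        (fun i => derivative^[(i : ℕ)] u) := by
    intro u
    ext1 i k
    by_cases hk : k = j
    · subst hk
      rw [updateCol_self]
      simp
    · rw [updateCol_ne hk]
      simp [Function.update_of_ne hk]
  unfold Wr
  rw [e, e]
  have h1 : (fun i : Fin m => derivative^[(i : ℕ)] (c * u)) =
      c • (fun i : Fin m => derivative^[(i : ℕ)] u) := by
    funext i
    rw [iterate_derivative_const_mul hc]
    rfl
  rw [h1, det_updateCol_smul]

end Pool.Agent.Helper35_Wr
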