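import Mathlib
import Pool.Agent.Helper35_Wr.Powers

set_option autoImplicit false

namespace Pool.Agent.Helper35_Wr

open Polynomial Matrix

variable {K : Type*} [Field K]

lemma Wr_ne_zero [CharZero K] {m : ℕ} (v : Fin m → K[X]) (hv : LinearIndependent K v) : Wr v ≠ 0 := by
  set f : ℕ → K[X] := fun j => if h : j < m then v ⟨j, h⟩ else 0 with hf
  have h1 : (fun j : Fin m => f j) = v := by
    funext j
    simp [hf]
  have h2 := W_ne_zero m f (by rw [h1]; exact hv)
  rwa [W_eq_Wr, h1] at h2

/-- Dividing a finite family by its gcd. -/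
lemma exists_gcd_cofactors {l : ℕ} (p : Fin (l + 1) → K[X]) (hp : ∀ i, p i ≠ 0) :
    ∃ (g : K[X]) (p' : Fin (l + 1) → K[X]), g ≠ 0 ∧ (∀ i, p i = g * p' i) ∧
      Ideal.span (Set.range p') = ⊤ := by
  set I : Ideal K[X] := Ideal.span (Set.range p) with hI
  set g := Submodule.IsPrincipal.generator I with hg
  have hIg : Ideal.span {g} = I := Ideal.span_singleton_generator I
  have hmem : ∀ i, p i ∈ Ideal.span {g} := by
    intro i
    rw [hIg]
    exact Ideal.subset_span ⟨i, rfl⟩
  have hdvd : ∀ i, ∃ q, p i = g * q := fun i => Ideal.mem_span_singleton.mp (hmem i)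
  choose p' hp' using hdvd
  have hg0 : g ≠ 0 := by
    intro h
    apply hp 0
    rw [hp' 0, h, zero_mul]
  refine ⟨g, p', hg0, hp', ?_⟩
  rw [Ideal.eq_top_iff_one]
  have hgI : g ∈ I := by rw [← hIg]; exact Ideal.mem_span_singleton_self g
  rw [hI, Ideal.span, Submodule.mem_span_range_iff_exists_fun] at hgI
  obtain ⟨c, hc⟩ := hgI
  have h1 : g * (∑ i, c i * p' i) = g * 1 := by
    rw [Finset.mul_sum, mul_one]
    conv_rhs => rw [← hc]
    apply Finset.sum_congr rfl
    intro i _
    rw [smul_eq_mul]
    conv_rhs => rw [hp' i]
    ring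
  have h2 := mul_left_cancel₀ hg0 h1
  rw [← h2]
  exact Ideal.sum_mem _ fun i _ => Ideal.mul_mem_left _ _ (Ideal.subset_span ⟨i, rfl⟩)

lemma NonProp.symm {p q : K[X]} (h : NonProp p q) : NonProp q p := fun a b hab =>
  (h b a hab.symm).symm

lemma NonProp.of_mul {g p q : K[X]} (h : NonProp (g * p) (g * q)) : NonProp p q := by
  intro a b hab
  apply h a b
  rw [mul_left_comm, hab, mul_left_comm]

lemma natDegree_prod_eq {ι : Type*} (s : Finset ι) (f : ι → K[X]) (h : ∀ i ∈ s, f i ≠ 0) :
    (∏ i ∈ s, f i).natDegree = ∑ i ∈ s, (f i).natDegree :=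
  natDegree_prod _ _ h

/-- Newman-Slater type independence: `h i * p i ^ d` are linearly independent when the `p i` are
pairwise non-proportional and `d` is large compared with the number of terms and the degrees of
the `h i` only. -/
theorem indep_high_powers [CharZero K] (Δ d : ℕ) : ∀ (l : ℕ) (h p : Fin l → K[X]),
    (∀ i, h i ≠ 0) → (∀ i, p i ≠ 0) → (∀ i, (h i).natDegree ≤ Δ) →
    (∀ i j, i ≠ j → NonProp (p i) (p j)) → (l - 1) * (l - 1 + Δ) ≤ d →
    ∀ a : Fin l → K, ∑ i, C (a i) * (h i * p i ^ d) = 0 → ∀ i, a i = 0 := by
  intro l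
  induction l with
  | zero => intro _ _ _ _ _ _ _ _ _ i; exact i.elim0
  | succ l ih =>
    intro h p hh hp hdeg hnp hd a ha
    rw [Nat.add_sub_cancel] at hd
    have hd' : (l - 1) * (l - 1 + Δ) ≤ d := by
      refine le_trans ?_ hd
      apply Nat.mul_le_mul <;> omega
    by_cases hz : ∃ j, a j = 0
    · obtain ⟨j, hj⟩ := hz
      rw [Fin.sum_univ_succAbove _ j, hj, C_0, zero_mul, zero_add] at ha
      have h1 := ih (fun i => h (j.succAbove i)) (fun i => p (j.succAbove i))
        (fun i => hh _) (fun i => hp _) (fun i => hdeg _)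
        (fun i i' hii => hnp _ _ (fun e => hii (Fin.succAbove_right_injective e))) hd'
        (fun i => a (j.succAbove i)) ha
      intro i
      rcases Fin.eq_self_or_eq_succAbove j i with h2 | ⟨i', h2⟩
      · rw [h2]; exact hj
      · rw [h2]; exact h1 i'
    · exfalso
      push Not at hz
      rcases Nat.eq_zero_or_pos l with hl | hl
      · subst hl
        have h1 : ∑ i : Fin (0 + 1), C (a i) * (h i * p i ^ d) = C (a 0) * (h 0 * p 0 ^ d) :=
          Fin.sum_univ_one _
        rw [h1] at ha
        have h2 : C (a 0) ≠ 0 := by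
          rw [Ne, C_eq_zero]; exact hz 0
        exact (mul_ne_zero h2 (mul_ne_zero (hh 0) (pow_ne_zero _ (hp 0)))) ha
      obtain ⟨g, p', hg0, hpp', hspan⟩ := exists_gcd_cofactors p hp
      have hp'0 : ∀ i, p' i ≠ 0 := by
        intro i h0
        apply hp i
        rw [hpp' i, h0, mul_zero]
      have hnp' : ∀ i j, i ≠ j → NonProp (p' i) (p' j) := by
        intro i j hij
        have := hnp i j hij
        rw [hpp' i, hpp' j] at this
        exact this.of_mul
      have ha' : ∑ i, C (a i) * (h i * p' i ^ d) = 0 := by
        have h1 : g ^ d * ∑ i, C (a i) * (h i * p' i ^ d) = 0 := by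
          rw [Finset.mul_sum, ← ha]
          apply Finset.sum_congr rfl
          intro i _
          rw [hpp' i, mul_pow]
          ring
        exact (mul_eq_zero.mp h1).resolve_left (pow_ne_zero _ hg0)
      obtain ⟨i1, hi1⟩ := Finite.exists_max (fun i => (p' i).natDegree)
      set hs : Fin l → K[X] := fun j => h (i1.succAbove j) with hhs
      set ps : Fin l → K[X] := fun j => p' (i1.succAbove j) with hps
      set v : Fin l → K[X] := fun j => hs j * ps j ^ d with hv
      have hvind : LinearIndependent K v := by
        rw [Fintype.linearIndependent_iff]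
        intro c hc
        apply ih hs ps (fun i => hh _) (fun i => hp'0 _) (fun i => hdeg _)
          (fun i i' hii => hnp' _ _ (fun e => hii (Fin.succAbove_right_injective e))) hd' c
        rw [← hc]
        apply Finset.sum_congr rfl
        intro i _
        rw [smul_eq_C_mul]
      have hW := Wr_ne_zero v hvind
      set e := d + 1 - l with he
      have hld : l ≤ d + 1 := by nlinarith
      set Q := ∏ i, p' i with hQ
      have hkey : ∀ i, Q ^ e ∣ p' i ^ e * Wr v := by
        intro i
        rcases Fin.eq_self_or_eq_succAbove i1 i with h2 | ⟨j, h2⟩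
        · obtain ⟨V, hV, -⟩ := Wr_powers hs ps d hld
          rw [h2, hV, ← mul_assoc, ← mul_pow, hQ, Fin.prod_univ_succAbove _ i1]
          exact dvd_mul_right _ _
        · set hs2 := Function.update hs j (-(C (a i1) * h i1)) with hhs2
          set ps2 := Function.update ps j (p' i1) with hps2
          obtain ⟨V, hV, -⟩ := Wr_powers hs2 ps2 d hld
          have h3 : (fun k => hs2 k * ps2 k ^ d) =
              Function.update v j (∑ k, C (a (i1.succAbove k)) * v k) := by
            funext k
            by_cases hk : k = j
            · subst hk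
              rw [hhs2, hps2, Function.update_self, Function.update_self, Function.update_self]
              rw [Fin.sum_univ_succAbove _ i1] at ha'
              have h4 := eq_neg_of_add_eq_zero_right ha'
              rw [h4]
              ring
            · rw [hhs2, hps2, Function.update_of_ne hk, Function.update_of_ne hk,
                Function.update_of_ne hk]
          rw [h3, Wr_update] at hV
          have h5 : Q ^ e ∣ p' i ^ e * (C (a (i1.succAbove j)) * Wr v) := by
            rw [hV, ← mul_assoc, ← mul_pow]
            have h6 : p' i * ∏ k, ps2 k = Q := by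
              rw [hQ, Fin.prod_univ_succAbove _ i1, hps2,
                Finset.prod_update_of_mem (Finset.mem_univ j), h2,
                ← Finset.mul_prod_erase _ _ (Finset.mem_univ j), Finset.sdiff_singleton_eq_erase]
              ring
            rw [h6]
            exact dvd_mul_right _ _
          have h7 : p' i ^ e * Wr v =
              C (a (i1.succAbove j))⁻¹ * (p' i ^ e * (C (a (i1.succAbove j)) * Wr v)) := by
            have h8 : C (a (i1.succAbove j))⁻¹ * C (a (i1.succAbove j)) = (1 : K[X]) := by
              rw [← C_mul, inv_mul_cancel₀ (hz _), C_1]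
            linear_combination (-(p' i ^ e * Wr v)) * h8
          rw [h7]
          exact h5.mul_left _
      have hQW : Q ^ e ∣ Wr v := by
        have h1 := Ideal.span_pow_eq_top (Set.range p') hspan e
        rw [Ideal.eq_top_iff_one] at h1
        have h2 : ∀ r ∈ Ideal.span ((fun x => x ^ e) '' Set.range p'), Q ^ e ∣ r * Wr v := by
          intro r hr
          induction hr using Submodule.span_induction with
          | mem x hx =>
            obtain ⟨y, ⟨i, rfl⟩, rfl⟩ := hx
            exact hkey i
          | zero => simp
          | add x y _ _ hx hy => rw [add_mul]; exact dvd_add hx hy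
          | smul c x _ hx => rw [smul_eq_mul, mul_assoc]; exact hx.mul_left _
        simpa using h2 1 h1
      have hQ0 : Q ≠ 0 := Finset.prod_ne_zero_iff.mpr fun i _ => hp'0 i
      obtain ⟨V, hV, hVdeg⟩ := Wr_powers hs ps d hld
      have hV0 : V ≠ 0 := by
        intro h0
        rw [h0, mul_zero] at hV
        exact hW hV
      have hPs0 : (∏ j, ps j) ≠ 0 := Finset.prod_ne_zero_iff.mpr fun i _ => hp'0 _
      have hdW : (Wr v).natDegree = e * (∏ j, ps j).natDegree + V.natDegree := by
        rw [hv, hV, natDegree_mul (pow_ne_zero _ hPs0) hV0, natDegree_pow]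
      have hdW2 : e * Q.natDegree ≤ (Wr v).natDegree := by
        rw [← natDegree_pow]
        exact natDegree_le_of_dvd hQW hW
      have hdQ : Q.natDegree = (p' i1).natDegree + (∏ j, ps j).natDegree := by
        rw [hQ, Fin.prod_univ_succAbove _ i1, natDegree_mul (hp'0 _) hPs0]
      set x := (p' i1).natDegree with hx
      have h9 : e * x ≤ V.natDegree := by
        rw [hdW, hdQ, mul_add] at hdW2
        omega
      have h10 : V.natDegree ≤ l * Δ + l * ((l - 1) * x) := by
        refine hVdeg.trans ?_
        calc ∑ j, ((hs j).natDegree + (l - 1) * (ps j).natDegree) ≤ ∑ j : Fin l, (Δ + (l - 1) * x) := by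
              apply Finset.sum_le_sum
              intro j _
              exact add_le_add (hdeg _) (Nat.mul_le_mul_left _ (hi1 _))
          _ = _ := by
              rw [Finset.sum_const, Finset.card_univ, Fintype.card_fin, smul_eq_mul, mul_add]
      have hx1 : 1 ≤ x := by
        by_contra hx0
        have hx0' : x = 0 := by omega
        have hc : ∀ i, p' i = C ((p' i).coeff 0) := by
          intro i
          apply eq_C_of_natDegree_eq_zero
          have := hi1 i
          omega
        have h11 := hnp' ⟨0, by omega⟩ ⟨1, by omega⟩ (by simp [Fin.ext_iff])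
        have h12 := h11 ((p' ⟨1, by omega⟩).coeff 0) ((p' ⟨0, by omega⟩).coeff 0) (by
          rw [hc ⟨0, by omega⟩, hc ⟨1, by omega⟩]
          simp only [coeff_C_zero]
          ring)
        apply hp'0 ⟨1, by omega⟩
        rw [hc ⟨1, by omega⟩, h12.1, C_0]
      have h13 : l * (l - 1) + l * Δ + 1 ≤ e := by
        have e1 : l - 1 + 1 = l := by omega
        have e2 : l * (l - 1) + l = l * l := by
          calc l * (l - 1) + l = l * ((l - 1) + 1) := by ring
            _ = l * l := by rw [e1]
        have e3 : l * (l + Δ) = l * l + l * Δ := by ring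
        omega
      have h14 : (l * (l - 1) + l * Δ + 1) * x ≤ l * Δ + l * ((l - 1) * x) :=
        (Nat.mul_le_mul_right x h13).trans (h9.trans h10)
      have h15 : l * Δ ≤ l * Δ * x := Nat.le_mul_of_pos_right _ hx1
      have h16 : (l * (l - 1) + l * Δ + 1) * x = l * ((l - 1) * x) + l * Δ * x + x := by ring
      omega

end Pool.Agent.Helper35_Wr
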