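import Mathlib
import Pool.Agent.Helper35_Wr.Const
import Pool.Agent.Helper35_Wr.HighPow

set_option autoImplicit false

/-!
Independence of high powers over `ZMod p`, over the field of constants.
-/

namespace Pool.Agent.Helper35_Wr

open Polynomial Matrix UniqueFactorizationMonoid

section general

open scoped Classical

variable {K : Type*} [Field K]

/-- multiplicity of `π` as a normalized factor -/
noncomputable def vl (π A : K[X]) : ℕ := (normalizedFactors A).count π

lemma vl_mul (π : K[X]) {A B : K[X]} (hA : A ≠ 0) (hB : B ≠ 0) : vl π (A * B) = vl π A + vl π B := by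
  unfold vl
  rw [normalizedFactors_mul hA hB, Multiset.count_add]

lemma vl_pow (π A : K[X]) (n : ℕ) : vl π (A ^ n) = n * vl π A := by
  unfold vl
  rw [normalizedFactors_pow, Multiset.count_nsmul]

lemma vl_le_natDegree (π : K[X]) {A : K[X]} (hA : A ≠ 0) : vl π A ≤ A.natDegree := by
  unfold vl
  by_cases hπ : π ∈ normalizedFactors A
  · have hirr := irreducible_of_normalized_factor π hπ
    have hdeg : 1 ≤ π.natDegree := hirr.natDegree_pos
    have h1 : π ^ ((normalizedFactors A).count π) ∣ A := by
      have h2 : Multiset.replicate ((normalizedFactors A).count π) π ≤ normalizedFactors A :=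
        Multiset.le_count_iff_replicate_le.mp le_rfl
      have h3 := Multiset.prod_dvd_prod_of_le h2
      rw [Multiset.prod_replicate] at h3
      exact h3.trans (prod_normalizedFactors hA).dvd
    have h4 := natDegree_le_of_dvd h1 hA
    rw [natDegree_pow] at h4
    calc _ ≤ (normalizedFactors A).count π * π.natDegree := Nat.le_mul_of_pos_right _ hdeg
      _ ≤ _ := by convert h4
  · have h1 : (normalizedFactors A).count π = 0 := Multiset.count_eq_zero.mpr hπ
    have h2 : Multiset.count π (normalizedFactors A) ≤ A.natDegree := by rw [h1]; exact Nat.zero_le _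
    convert h2

lemma exists_vl_ne {A B : K[X]} (hA : A ≠ 0) (hB : B ≠ 0) (h : NonProp A B) :
    ∃ π, vl π A ≠ vl π B := by
  by_contra hcon
  push Not at hcon
  have h1 : normalizedFactors A = normalizedFactors B := by
    ext π
    have := hcon π
    unfold vl at this
    convert this
  rw [← associated_iff_normalizedFactors_eq_normalizedFactors hA hB] at h1
  obtain ⟨u, hu⟩ := h1
  obtain ⟨c, hc, hcu⟩ := Polynomial.isUnit_iff.mp u.isUnit
  have h2 := h c 1 (by rw [hcu, mul_comm, hu, C_1, one_mul])
  exact one_ne_zero h2.2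

end general

variable {p : ℕ} [Fact p.Prime]

lemma const_eq_pow {c : (ZMod p)[X]} (hc : derivative c = 0) : ∃ g, c = g ^ p := by
  refine ⟨contract p c, ?_⟩
  rw [← ZMod.expand_card, expand_contract p hc (NeZero.ne p)]

theorem indepC_powers_mod (Δh Δ d B : ℕ)
    (hgood : ∀ a b : ℤ, 1 ≤ a → a ≤ Δ → |b| ≤ B → ¬ (p : ℤ) ∣ d * a - b) :
    ∀ (l : ℕ) (h P : Fin l → (ZMod p)[X]),
    (∀ i, h i ≠ 0) → (∀ i, P i ≠ 0) → (∀ i, (h i).natDegree ≤ Δh) → (∀ i, (P i).natDegree ≤ Δ) →
    (∀ i j, i ≠ j → NonProp (P i) (P j)) → l ≤ d + 1 → l * (Δh + l * Δ) ≤ B →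
    ∀ c : Fin l → (ZMod p)[X], (∀ i, derivative (c i) = 0) → ∑ i, c i * (h i * P i ^ d) = 0 →
    ∀ i, c i = 0 := by
  intro l
  induction l with
  | zero => intro _ _ _ _ _ _ _ _ _ _ _ _ i; exact i.elim0
  | succ l ih =>
    intro h P hh hP hdh hdP hnp hld hB c hc hsum
    have hB' : l * (Δh + l * Δ) ≤ B := by
      refine le_trans ?_ hB
      apply Nat.mul_le_mul (by omega)
      apply Nat.add_le_add_left
      apply Nat.mul_le_mul_right
      omega
    by_cases hz : ∃ j, c j = 0
    · obtain ⟨j, hj⟩ := hz
      rw [Fin.sum_univ_succAbove _ j, hj, zero_mul, zero_add] at hsum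
      have h1 := ih (fun i => h (j.succAbove i)) (fun i => P (j.succAbove i))
        (fun i => hh _) (fun i => hP _) (fun i => hdh _) (fun i => hdP _)
        (fun i i' hii => hnp _ _ (fun e => hii (Fin.succAbove_right_injective e))) (by omega) hB'
        (fun i => c (j.succAbove i)) (fun i => hc _) hsum
      intro i
      rcases Fin.eq_self_or_eq_succAbove j i with h2 | ⟨i', h2⟩
      · rw [h2]; exact hj
      · rw [h2]; exact h1 i'
    · exfalso
      push Not at hz
      rcases Nat.eq_zero_or_pos l with hl | hl
      · subst hl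
        have h1 : ∑ i : Fin (0 + 1), c i * (h i * P i ^ d) = c 0 * (h 0 * P 0 ^ d) :=
          Fin.sum_univ_one _
        rw [h1] at hsum
        exact (mul_ne_zero (hz 0) (mul_ne_zero (hh 0) (pow_ne_zero _ (hP 0)))) hsum
      set i1 : Fin (l + 1) := 0 with hi1
      set hs : Fin l → (ZMod p)[X] := fun j => h (i1.succAbove j) with hhs
      set ps : Fin l → (ZMod p)[X] := fun j => P (i1.succAbove j) with hps
      set v : Fin l → (ZMod p)[X] := fun j => hs j * ps j ^ d with hv
      have hvind : ∀ c : Fin l → (ZMod p)[X], (∀ j, derivative (c j) = 0) →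
          ∑ j, c j * v j = 0 → ∀ j, c j = 0 := by
        intro c' hc' hsum'
        exact ih hs ps (fun i => hh _) (fun i => hP _) (fun i => hdh _) (fun i => hdP _)
          (fun i i' hii => hnp _ _ (fun e => hii (Fin.succAbove_right_injective e))) (by omega) hB'
          c' hc' hsum'
      have hW := Wr_ne_zero_of_indepC v hvind
      set e := d + 1 - l with he
      have hld' : l ≤ d + 1 := by omega
      set j : Fin l := ⟨0, hl⟩ with hj
      set hs2 := Function.update hs j (h i1) with hhs2
      set ps2 := Function.update ps j (P i1) with hps2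
      obtain ⟨V, hV, hVd⟩ := Wr_powers hs ps d hld'
      obtain ⟨V2, hV2, hV2d⟩ := Wr_powers hs2 ps2 d hld'
      have h3 : (fun k => hs2 k * ps2 k ^ d) = Function.update v j (h i1 * P i1 ^ d) := by
        funext k
        by_cases hk : k = j
        · rw [hk, hhs2, hps2, Function.update_self, Function.update_self, Function.update_self]
        · rw [hhs2, hps2, Function.update_of_ne hk, Function.update_of_ne hk,
            Function.update_of_ne hk]
      have h4 : c (i1.succAbove j) * Wr v = -c i1 * Wr (Function.update v j (h i1 * P i1 ^ d)) := by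
        rw [← Wr_update_const v j (fun k => c (i1.succAbove k)) (fun k => hc _),
          ← Wr_update_mul v j (by rw [derivative_neg, hc, neg_zero])]
        congr 2
        rw [Fin.sum_univ_succAbove _ i1] at hsum
        have h5 := eq_neg_of_add_eq_zero_right hsum
        rw [h5]
        ring
      rw [← h3, hV2, hv, hV] at h4
      have hPs : ∏ k, ps k = P (i1.succAbove j) * ∏ k ∈ Finset.univ.erase j, ps k := by
        rw [← Finset.mul_prod_erase _ _ (Finset.mem_univ j)]
      have hPs2 : ∏ k, ps2 k = P i1 * ∏ k ∈ Finset.univ.erase j, ps k := by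
        rw [hps2, Finset.prod_update_of_mem (Finset.mem_univ j), Finset.sdiff_singleton_eq_erase]
      set R := ∏ k ∈ Finset.univ.erase j, ps k with hR
      have hR0 : R ≠ 0 := Finset.prod_ne_zero_iff.mpr fun k _ => hP _
      rw [hPs, hPs2] at h4
      have h6 : c (i1.succAbove j) * P (i1.succAbove j) ^ e * V = c i1 * P i1 ^ e * (-V2) := by
        have h7 : R ^ e * (c (i1.succAbove j) * P (i1.succAbove j) ^ e * V) =
            R ^ e * (c i1 * P i1 ^ e * (-V2)) := by
          rw [mul_pow, mul_pow] at h4
          linear_combination h4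
        exact mul_left_cancel₀ (pow_ne_zero _ hR0) h7
      have hV0 : V ≠ 0 := by
        intro h0
        rw [h0, mul_zero] at hV
        exact hW hV
      have hL0 : c (i1.succAbove j) * P (i1.succAbove j) ^ e * V ≠ 0 :=
        mul_ne_zero (mul_ne_zero (hz _) (pow_ne_zero _ (hP _))) hV0
      have hV20 : -V2 ≠ 0 := by
        intro h0
        rw [h6, h0, mul_zero] at hL0
        exact hL0 rfl
      obtain ⟨g1, hg1⟩ := const_eq_pow (hc (i1.succAbove j))
      obtain ⟨g2, hg2⟩ := const_eq_pow (hc i1)
      obtain ⟨π, hπ⟩ := exists_vl_ne (hP (i1.succAbove j)) (hP i1)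
        (hnp _ _ (Fin.succAbove_ne i1 j))
      have h8 := congrArg (vl π) h6
      rw [vl_mul π (mul_ne_zero (hz _) (pow_ne_zero _ (hP _))) hV0,
        vl_mul π (hz _) (pow_ne_zero _ (hP _)), vl_mul π (mul_ne_zero (hz _) (pow_ne_zero _ (hP _))) hV20,
        vl_mul π (hz _) (pow_ne_zero _ (hP _)), hg1, hg2, vl_pow, vl_pow, vl_pow, vl_pow] at h8
      have hVd' : V.natDegree ≤ l * (Δh + (l - 1) * Δ) := by
        refine hVd.trans ?_
        calc _ ≤ ∑ k : Fin l, (Δh + (l - 1) * Δ) :=
              Finset.sum_le_sum fun k _ => add_le_add (hdh _) (Nat.mul_le_mul_left _ (hdP _))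
          _ = _ := by simp
      have hV2d' : (-V2).natDegree ≤ l * (Δh + (l - 1) * Δ) := by
        rw [natDegree_neg]
        refine hV2d.trans ?_
        calc _ ≤ ∑ k : Fin l, (Δh + (l - 1) * Δ) := by
              apply Finset.sum_le_sum
              intro k _
              apply add_le_add
              · by_cases hk : k = j
                · rw [hk, hhs2, Function.update_self]; exact hdh _
                · rw [hhs2, Function.update_of_ne hk]; exact hdh _
              · apply Nat.mul_le_mul_left
                by_cases hk : k = j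
                · rw [hk, hps2, Function.update_self]; exact hdP _
                · rw [hps2, Function.update_of_ne hk]; exact hdP _
          _ = _ := by simp
      have e1 := (vl_le_natDegree π hV0).trans hVd'
      have e2 := (vl_le_natDegree π hV20).trans hV2d'
      have e3 := (vl_le_natDegree π (hP (i1.succAbove j))).trans (hdP _)
      have e4 := (vl_le_natDegree π (hP i1)).trans (hdP _)
      have hBl : l * (Δh + (l - 1) * Δ) + (l - 1) * Δ ≤ B := by
        obtain ⟨l', rfl⟩ : ∃ l', l = l' + 1 := ⟨l - 1, by omega⟩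
        rw [Nat.add_sub_cancel]
        nlinarith
      have hez : ((e : ℕ) : ℤ) = d - ((l - 1 : ℕ) : ℤ) := by
        rw [he]
        have : 1 ≤ l := hl
        push_cast [Nat.cast_sub hld', Nat.cast_sub this]
        ring
      have key : ∀ x y s t u w : ℕ, x < y → y ≤ Δ → s ≤ l * (Δh + (l - 1) * Δ) →
          t ≤ l * (Δh + (l - 1) * Δ) → p * u + e * x + s = p * w + e * y + t → False := by
        intro x y s t u w hxy hy hs' ht' heq
        have heq' : (p : ℤ) * u + (e : ℤ) * x + s = p * w + (e : ℤ) * y + t := by exact_mod_cast heq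
        apply hgood ((y : ℤ) - x) (((l - 1 : ℕ) : ℤ) * ((y : ℤ) - x) + s - t) (by omega) (by omega)
        · have f1 : (0 : ℤ) ≤ ((l - 1 : ℕ) : ℤ) * ((y : ℤ) - x) := by
            apply mul_nonneg (by positivity) (by omega)
          have f2 : ((l - 1 : ℕ) : ℤ) * ((y : ℤ) - x) ≤ (((l - 1) * Δ : ℕ) : ℤ) := by
            push_cast
            apply mul_le_mul_of_nonneg_left (by omega) (by positivity)
          rw [abs_le]
          constructor <;> omega
        · refine ⟨(u : ℤ) - w, ?_⟩
          rw [hez] at heq'
          linear_combination (-1 : ℤ) * heq'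
      rcases Nat.lt_or_gt_of_ne hπ with hlt | hgt
      · exact key _ _ _ _ _ _ hlt e4 e1 e2 h8
      · exact key _ _ _ _ _ _ hgt e3 e2 e1 h8.symm

end Pool.Agent.Helper35_Wr
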