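import Mathlib
import Pool.Agent.Helper35_Wr.ModP

set_option autoImplicit false

/-!
Order of vanishing of sums of high powers at a point, over `ZMod p`.
-/

namespace Pool.Agent.Helper35_Wr

open Polynomial Matrix

section general

variable {K : Type*} [Field K]

lemma dvd_det_of_dvd_col {m : ℕ} (M : Matrix (Fin m) (Fin m) K[X]) (j : Fin m) (D : K[X])
    (h : ∀ i, D ∣ M i j) : D ∣ M.det := by
  choose q hq using h
  have h1 : M = M.updateCol j (D • q) := by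
    ext1 i k
    by_cases hk : k = j
    · subst hk
      rw [updateCol_self]
      simp [hq i]
    · rw [updateCol_ne hk]
  rw [h1, det_updateCol_smul]
  exact dvd_mul_right _ _

lemma dvd_Wr_of_dvd {m : ℕ} (v : Fin m → K[X]) (j : Fin m) (q : K[X]) (N : ℕ)
    (h : q ^ N ∣ v j) : q ^ (N + 1 - m) ∣ Wr v := by
  unfold Wr
  apply dvd_det_of_dvd_col _ j
  intro i
  simp only [of_apply]
  have h1 := pow_sub_dvd_iterate_derivative_of_pow_dvd (i : ℕ) h
  refine (pow_dvd_pow _ ?_).trans h1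
  have := i.2
  omega

end general

variable {p : ℕ} [Fact p.Prime]

theorem not_pow_dvd_sum_mod (Δh Δ d B : ℕ)
    (hgood : ∀ a b : ℤ, 1 ≤ a → a ≤ Δ → |b| ≤ B → ¬ (p : ℤ) ∣ d * a - b)
    (l : ℕ) (h P : Fin l → (ZMod p)[X])
    (hh : ∀ i, h i ≠ 0) (hP : ∀ i, P i ≠ 0) (hdh : ∀ i, (h i).natDegree ≤ Δh)
    (hdP : ∀ i, (P i).natDegree ≤ Δ)
    (hnp : ∀ i j, i ≠ j → NonProp (P i) (P j)) (hld : l ≤ d + 1) (hB : l * (Δh + l * Δ) ≤ B)
    (hl : 0 < l) (x : ZMod p) (hx : ∀ i, (P i).eval x ≠ 0) (N : ℕ)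
    (hN : l * (Δh + (l - 1) * Δ) + l ≤ N) : ¬ (X - C x) ^ N ∣ ∑ i, h i * P i ^ d := by
  intro hdvd
  set v : Fin l → (ZMod p)[X] := fun j => h j * P j ^ d with hv
  have hind := indepC_powers_mod Δh Δ d B hgood l h P hh hP hdh hdP hnp hld hB
  have hW := Wr_ne_zero_of_indepC v hind
  have h1 : Wr (Function.update v ⟨0, hl⟩ (∑ k, (fun _ => 1 : Fin l → (ZMod p)[X]) k * v k)) =
      (fun _ => 1 : Fin l → (ZMod p)[X]) ⟨0, hl⟩ * Wr v :=
    Wr_update_const v ⟨0, hl⟩ (fun _ => 1) (fun _ => derivative_one)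
  simp only [one_mul] at h1
  have h2 : (X - C x) ^ (N + 1 - l) ∣ Wr v := by
    rw [← h1]
    apply dvd_Wr_of_dvd _ ⟨0, hl⟩
    rw [Function.update_self]
    exact hdvd
  obtain ⟨V, hV, hVd⟩ := Wr_powers h P d hld
  have hV0 : V ≠ 0 := by
    intro h0
    rw [h0, mul_zero] at hV
    exact hW hV
  have h3 : (X - C x) ^ (N + 1 - l) ∣ V := by
    rw [hv, hV] at h2
    apply (prime_X_sub_C x).pow_dvd_of_dvd_mul_left _ _ h2
    intro h4
    have h5 := (prime_X_sub_C x).dvd_of_dvd_pow h4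
    rw [(prime_X_sub_C x).dvd_finset_prod_iff] at h5
    obtain ⟨i, -, hi⟩ := h5
    exact hx i (dvd_iff_isRoot.mp hi)
  have h4 := natDegree_le_of_dvd h3 hV0
  rw [natDegree_pow, natDegree_X_sub_C, mul_one] at h4
  have h5 : V.natDegree ≤ l * (Δh + (l - 1) * Δ) := by
    refine hVd.trans ?_
    calc _ ≤ ∑ k : Fin l, (Δh + (l - 1) * Δ) :=
          Finset.sum_le_sum fun k _ => add_le_add (hdh _) (Nat.mul_le_mul_left _ (hdP _))
      _ = _ := by simp
  omega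

end Pool.Agent.Helper35_Wr
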