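import Mathlib

set_option autoImplicit false

/-!
Collecting proportional bases in a sum of powers.
-/

namespace Pool.Agent.Helper35_Wr

open MvPolynomial

lemma merge {R ι : Type*} [CommRing R] [DecidableEq ι] (U : Set R) (nrm : R → ℕ)
    (hadd : ∀ a b, nrm (a + b) ≤ nrm a + nrm b) (d : ℕ) (hd : 1 ≤ d)
    (hU : ∀ c ∈ U, ∀ a, nrm (c ^ d * a) ≤ nrm a) (f : ι → MvPolynomial ℕ R)
    (M : Finset (ℕ →₀ ℕ)) : ∀ (s : Finset ι) (h : ι → MvPolynomial ℕ R),
    (∀ i ∈ s, (h i).support ⊆ M) → ∃ s' ⊆ s, ∃ h' : ι → MvPolynomial ℕ R,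
      (∀ i ∈ s', (h' i).support ⊆ M) ∧ (∀ i ∈ s', h' i ≠ 0) ∧ (∀ i ∈ s', f i ≠ 0) ∧
      (∀ i ∈ s', ∀ j ∈ s', i ≠ j → ¬ ∃ c ∈ U, f j = C c * f i) ∧
      (∀ α, ∑ i ∈ s', nrm ((h' i).coeff α) ≤ ∑ i ∈ s, nrm ((h i).coeff α)) ∧
      ∑ i ∈ s', h' i * f i ^ d = ∑ i ∈ s, h i * f i ^ d := by
  classical
  intro s
  induction s using Finset.strongInduction with
  | _ s ih =>
    intro h hM
    by_cases h1 : ∃ i ∈ s, h i = 0 ∨ f i = 0
    · obtain ⟨i, hi, hz⟩ := h1
      obtain ⟨s', hs', h', e1, e2, e3, e4, e5, e6⟩ := ih (s.erase i) (Finset.erase_ssubset hi) h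
        (fun j hj => hM j (Finset.mem_of_mem_erase hj))
      refine ⟨s', hs'.trans (Finset.erase_subset _ _), h', e1, e2, e3, e4, ?_, ?_⟩
      · intro α
        exact (e5 α).trans (Finset.sum_le_sum_of_subset (Finset.erase_subset _ _))
      · rw [e6, ← Finset.add_sum_erase s (fun i => h i * f i ^ d) hi]
        have : h i * f i ^ d = 0 := by
          rcases hz with hz | hz
          · rw [hz, zero_mul]
          · rw [hz, zero_pow (by omega), mul_zero]
        rw [this, zero_add]
    · push Not at h1
      by_cases h2 : ∃ i ∈ s, ∃ j ∈ s, i ≠ j ∧ ∃ c ∈ U, f j = C c * f i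
      · obtain ⟨i, hi, j, hj, hij, c, hc, hf⟩ := h2
        set h1' : ι → MvPolynomial ℕ R := Function.update h i (h i + C (c ^ d) * h j) with hh1
        have hi' : i ∈ s.erase j := Finset.mem_erase.mpr ⟨hij, hi⟩
        obtain ⟨s', hs', h', e1, e2, e3, e4, e5, e6⟩ := ih (s.erase j) (Finset.erase_ssubset hj) h1'
          (by
            intro k hk
            by_cases hki : k = i
            · rw [hki, hh1, Function.update_self]
              refine (support_add).trans (Finset.union_subset (hM i hi) ?_)
              intro α hα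
              apply hM j hj
              rw [mem_support_iff] at hα ⊢
              intro h0
              apply hα
              rw [coeff_C_mul, h0, mul_zero]
            · rw [hh1, Function.update_of_ne hki]
              exact hM k (Finset.mem_of_mem_erase hk))
        refine ⟨s', hs'.trans (Finset.erase_subset _ _), h', e1, e2, e3, e4, ?_, ?_⟩
        · intro α
          refine (e5 α).trans ?_
          rw [← Finset.add_sum_erase _ _ hi', ← Finset.add_sum_erase s _ hj,
            ← Finset.add_sum_erase (s.erase j) (fun k => nrm (coeff α (h k))) hi']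
          have e7 : ∑ k ∈ (s.erase j).erase i, nrm (coeff α (h1' k)) =
              ∑ k ∈ (s.erase j).erase i, nrm (coeff α (h k)) := by
            apply Finset.sum_congr rfl
            intro k hk
            rw [hh1, Function.update_of_ne (Finset.ne_of_mem_erase hk)]
          rw [e7]
          have e8 : nrm (coeff α (h1' i)) ≤ nrm (coeff α (h i)) + nrm (coeff α (h j)) := by
            rw [hh1, Function.update_self, coeff_add, coeff_C_mul]
            exact (hadd _ _).trans (add_le_add le_rfl (hU c hc _))
          omega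
        · rw [e6, ← Finset.add_sum_erase _ _ hi', ← Finset.add_sum_erase s _ hj,
            ← Finset.add_sum_erase (s.erase j) (fun k => h k * f k ^ d) hi']
          have e7 : ∑ k ∈ (s.erase j).erase i, h1' k * f k ^ d =
              ∑ k ∈ (s.erase j).erase i, h k * f k ^ d := by
            apply Finset.sum_congr rfl
            intro k hk
            rw [hh1, Function.update_of_ne (Finset.ne_of_mem_erase hk)]
          rw [e7, hh1, Function.update_self, hf, mul_pow, C_pow]
          ring
      · push Not at h2
        refine ⟨s, Finset.Subset.refl _, h, hM, fun i hi => (h1 i hi).1, fun i hi => (h1 i hi).2,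
          ?_, fun α => le_rfl, rfl⟩
        rintro i hi j hj hij ⟨c, hc, hf⟩
        exact h2 i hi j hj hij c hc hf

end Pool.Agent.Helper35_Wr
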