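import Mathlib

set_option autoImplicit false

/-!
The substitutions `x_j ↦ X ^ (τ ^ j mod q)`.
-/

namespace Pool.Agent.Helper35_Wr

open Polynomial

/-- `f` has at most `S` monomials, each involving only the variables `x_j` with `j < n`, each
exponent being at most `D`. -/
structure Sparse {R : Type*} [CommSemiring R] (n S D : ℕ) (f : MvPolynomial ℕ R) : Prop where
  card_le : f.support.card ≤ S
  exp_le : ∀ α ∈ f.support, ∀ j, α j ≤ D
  vars : ∀ α ∈ f.support, ∀ j, n ≤ j → α j = 0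

/-- The weight of a monomial under `x_j ↦ X ^ (τ ^ j mod q)`. -/
noncomputable def wt (q τ : ℕ) (α : ℕ →₀ ℕ) : ℕ := ∑ j ∈ α.support, τ ^ j % q * α j

/-- The substitution `x_j ↦ X ^ (τ ^ j mod q)`. -/
noncomputable def proj (R : Type*) [CommSemiring R] (q τ : ℕ) : MvPolynomial ℕ R →ₐ[R] R[X] :=
  MvPolynomial.aeval fun j => X ^ (τ ^ j % q)

section

variable {R : Type*} [CommSemiring R]

lemma proj_eq_sum (q τ : ℕ) (F : MvPolynomial ℕ R) :
    proj R q τ F = ∑ β ∈ F.support, C (F.coeff β) * X ^ (wt q τ β) := by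
  unfold proj
  rw [MvPolynomial.aeval_def, MvPolynomial.eval₂_eq]
  apply Finset.sum_congr rfl
  intro β _
  congr 1
  unfold wt
  rw [← Finset.prod_pow_eq_pow_sum]
  apply Finset.prod_congr rfl
  intro j _
  rw [pow_mul]

lemma coeff_proj {q τ : ℕ} {M : Finset (ℕ →₀ ℕ)} (hinj : Set.InjOn (wt q τ) M)
    {F : MvPolynomial ℕ R} (hF : F.support ⊆ M) {α : ℕ →₀ ℕ} (hα : α ∈ M) :
    (proj R q τ F).coeff (wt q τ α) = F.coeff α := by
  rw [proj_eq_sum, finset_sum_coeff]
  simp only [coeff_C_mul, coeff_X_pow]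
  by_cases hαF : α ∈ F.support
  · rw [Finset.sum_eq_single α]
    · simp
    · intro β hβ hβα
      rw [if_neg, mul_zero]
      intro h
      exact hβα (hinj (Finset.mem_coe.mpr hα) (Finset.mem_coe.mpr (hF hβ)) h).symm
    · intro h; exact absurd hαF h
  · rw [MvPolynomial.notMem_support_iff.mp hαF]
    apply Finset.sum_eq_zero
    intro β hβ
    rw [if_neg, mul_zero]
    intro h
    have := hinj (Finset.mem_coe.mpr hα) (Finset.mem_coe.mpr (hF hβ)) h
    rw [this] at hαF
    exact hαF hβ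

lemma proj_ne_zero {q τ : ℕ} {M : Finset (ℕ →₀ ℕ)} (hinj : Set.InjOn (wt q τ) M)
    {F : MvPolynomial ℕ R} (hF : F.support ⊆ M) (h0 : F ≠ 0) : proj R q τ F ≠ 0 := by
  obtain ⟨α, hα⟩ := MvPolynomial.ne_zero_iff.mp h0
  intro h
  have hαF : α ∈ F.support := MvPolynomial.mem_support_iff.mpr hα
  have h1 := coeff_proj hinj hF (hF hαF)
  rw [h, coeff_zero] at h1
  exact hα h1.symm

lemma wt_le {n D q τ : ℕ} (hq : 0 < q) {α : ℕ →₀ ℕ} (h1 : ∀ j, α j ≤ D)
    (h2 : ∀ j, n ≤ j → α j = 0) : wt q τ α ≤ n * D * q := by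
  unfold wt
  have hsub : α.support ⊆ Finset.range n := by
    intro j hj
    rw [Finset.mem_range]
    by_contra hn
    exact (Finsupp.mem_support_iff.mp hj) (h2 j (by omega))
  calc ∑ j ∈ α.support, τ ^ j % q * α j ≤ ∑ j ∈ Finset.range n, τ ^ j % q * α j :=
        Finset.sum_le_sum_of_subset hsub
    _ ≤ ∑ j ∈ Finset.range n, q * D := by
        apply Finset.sum_le_sum
        intro j _
        exact Nat.mul_le_mul (Nat.mod_lt _ hq).le (h1 j)
    _ = n * D * q := by simp; ring

lemma natDegree_proj_le {n D q τ : ℕ} (hq : 0 < q) {F : MvPolynomial ℕ R}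
    (h1 : ∀ α ∈ F.support, ∀ j, α j ≤ D) (h2 : ∀ α ∈ F.support, ∀ j, n ≤ j → α j = 0) :
    (proj R q τ F).natDegree ≤ n * D * q := by
  rw [proj_eq_sum]
  apply natDegree_sum_le_of_forall_le
  intro β hβ
  exact (natDegree_C_mul_X_pow_le _ _).trans (wt_le hq (h1 β hβ) (h2 β hβ))

lemma eval_proj {R : Type*} [CommRing R] (q τ : ℕ) (t : R) (F : MvPolynomial ℕ R) :
    (proj R q τ F).eval t = MvPolynomial.eval (fun j => t ^ (τ ^ j % q)) F := by
  unfold proj
  induction F using MvPolynomial.induction_on with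
  | C a => simp
  | add a b ha hb => rw [map_add, eval_add, ha, hb, map_add]
  | mul_X a j ha => rw [map_mul, eval_mul, ha, map_mul]; simp

lemma map_proj {R S : Type*} [CommRing R] [CommRing S] (φ : R →+* S) (q τ : ℕ)
    (F : MvPolynomial ℕ R) : (proj R q τ F).map φ = proj S q τ (MvPolynomial.map φ F) := by
  unfold proj
  induction F using MvPolynomial.induction_on with
  | C a => simp
  | add a b ha hb => rw [map_add, Polynomial.map_add, ha, hb, map_add, map_add]
  | mul_X a j ha => rw [map_mul, Polynomial.map_mul, ha, map_mul, map_mul]; simp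

end

/-- A good multiplier exists. -/
lemma exists_tau (n D q : ℕ) (hq : q.Prime) (M : Finset (ℕ →₀ ℕ))
    (h1 : ∀ α ∈ M, ∀ j, α j ≤ D) (h2 : ∀ α ∈ M, ∀ j, n ≤ j → α j = 0)
    (hbig : n * M.card ^ 2 + D < q) : ∃ τ < q, Set.InjOn (wt q τ) M := by
  classical
  have : Fact q.Prime := ⟨hq⟩
  set P : (ℕ →₀ ℕ) × (ℕ →₀ ℕ) → (ZMod q)[X] := fun x =>
    ∑ j ∈ Finset.range n, C (((x.1 j : ℕ) : ZMod q) - ((x.2 j : ℕ) : ZMod q)) * X ^ j with hP
  have hcoeff : ∀ x j, j < n → (P x).coeff j = ((x.1 j : ℕ) : ZMod q) - ((x.2 j : ℕ) : ZMod q) := by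
    intro x j hj
    rw [hP]
    simp only [finset_sum_coeff, coeff_C_mul, coeff_X_pow]
    rw [Finset.sum_eq_single j]
    · simp
    · intro b _ hb
      rw [if_neg (Ne.symm hb), mul_zero]
    · intro h
      exact absurd (Finset.mem_range.mpr hj) h
  have hne : ∀ x ∈ M.offDiag, P x ≠ 0 := by
    intro x hx
    rw [Finset.mem_offDiag] at hx
    obtain ⟨hx1, hx2, hx3⟩ := hx
    obtain ⟨j, hj⟩ := Finsupp.ne_iff.mp hx3
    have hjn : j < n := by
      by_contra hjn
      exact hj (by rw [h2 _ hx1 j (by omega), h2 _ hx2 j (by omega)])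
    intro h0
    have h3 := hcoeff x j hjn
    rw [h0, coeff_zero] at h3
    have h4 : ((x.1 j : ℕ) : ZMod q) = ((x.2 j : ℕ) : ZMod q) := (sub_eq_zero.mp h3.symm)
    rw [ZMod.natCast_eq_natCast_iff'] at h4
    have h5 := h1 _ hx1 j
    have h6 := h1 _ hx2 j
    rw [Nat.mod_eq_of_lt (by omega), Nat.mod_eq_of_lt (by omega)] at h4
    exact hj h4
  have hdeg : ∀ x, (P x).natDegree ≤ n := by
    intro x
    apply natDegree_sum_le_of_forall_le
    intro j hj
    refine (natDegree_C_mul_X_pow_le _ _).trans ?_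
    exact (Finset.mem_range.mp hj).le
  set bad : Finset (ZMod q) := M.offDiag.biUnion fun x => (P x).roots.toFinset with hbad
  have hbc : bad.card < Fintype.card (ZMod q) := by
    rw [ZMod.card]
    calc bad.card ≤ ∑ x ∈ M.offDiag, (P x).roots.toFinset.card := Finset.card_biUnion_le
      _ ≤ ∑ x ∈ M.offDiag, n := by
          apply Finset.sum_le_sum
          intro x _
          exact (Multiset.toFinset_card_le _).trans ((card_roots' _).trans (hdeg x))
      _ = M.offDiag.card * n := by simp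
      _ ≤ M.card ^ 2 * n := by
          apply Nat.mul_le_mul_right
          rw [Finset.offDiag_card, sq]
          exact Nat.sub_le _ _
      _ < q := by
          have := Nat.mul_comm n (M.card ^ 2)
          omega
  obtain ⟨s, hs⟩ : ∃ s, s ∉ bad := by
    by_contra hcon
    push Not at hcon
    have : bad = Finset.univ := Finset.eq_univ_iff_forall.mpr hcon
    rw [this, Finset.card_univ] at hbc
    exact lt_irrefl _ hbc
  have hcast : ∀ α ∈ M, ((wt q s.val α : ℕ) : ZMod q) = ∑ j ∈ Finset.range n, ((α j : ℕ) : ZMod q) * s ^ j := by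
    intro α hα
    unfold wt
    have hsub : α.support ⊆ Finset.range n := by
      intro j hj
      rw [Finset.mem_range]
      by_contra hn
      exact (Finsupp.mem_support_iff.mp hj) (h2 α hα j (by omega))
    rw [Nat.cast_sum]
    rw [Finset.sum_subset hsub]
    · apply Finset.sum_congr rfl
      intro j _
      rw [Nat.cast_mul, ZMod.natCast_mod, Nat.cast_pow, ZMod.natCast_zmod_val, mul_comm]
    · intro j _ hj
      rw [Finsupp.notMem_support_iff.mp hj, mul_zero, Nat.cast_zero]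
  refine ⟨s.val, ZMod.val_lt s, ?_⟩
  intro α hα β hβ hw
  by_contra hne'
  rw [Finset.mem_coe] at hα hβ
  apply hs
  rw [hbad, Finset.mem_biUnion]
  refine ⟨(α, β), Finset.mem_offDiag.mpr ⟨hα, hβ, hne'⟩, ?_⟩
  rw [Multiset.mem_toFinset, mem_roots (hne _ (Finset.mem_offDiag.mpr ⟨hα, hβ, hne'⟩)), IsRoot, hP]
  simp only [eval_finset_sum, eval_mul, eval_C, eval_pow, eval_X]
  have h3 := hcast α hα
  rw [hw, hcast β hβ] at h3
  simp only [sub_mul]
  rw [Finset.sum_sub_distrib, h3, sub_self]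

end Pool.Agent.Helper35_Wr
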