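import Mathlib
import Pool.Agent.Helper35_Wr.HighPow

set_option autoImplicit false

namespace Pool.Agent.Helper35_Wr

open Polynomial Matrix

/-- number of distinct real roots -/
noncomputable def nr (A : ℝ[X]) : ℕ := A.roots.toFinset.card

lemma nr_le_natDegree (A : ℝ[X]) : nr A ≤ A.natDegree :=
  (Multiset.toFinset_card_le _).trans (card_roots' A)

lemma nr_mul_le {A B : ℝ[X]} (h : A * B ≠ 0) : nr (A * B) ≤ nr A + nr B := by
  unfold nr
  rw [roots_mul h, Multiset.toFinset_add]
  exact Finset.card_union_le _ _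

lemma nr_pow_le (A : ℝ[X]) (e : ℕ) : nr (A ^ e) ≤ nr A := by
  unfold nr
  rw [roots_pow]
  apply Finset.card_le_card
  intro x hx
  rw [Multiset.mem_toFinset] at hx ⊢
  exact Multiset.mem_of_mem_nsmul hx

lemma nr_C_mul {A : ℝ[X]} {c : ℝ} (hc : c ≠ 0) : nr (C c * A) = nr A := by
  unfold nr
  rw [roots_C_mul _ hc]

/-- Rolle step. -/
lemma rolle_step {A B D : ℝ[X]} (hA : A ≠ 0) (hB : B ≠ 0) (hD : D ≠ 0)
    (h : B * derivative A - derivative B * A = D) : nr A ≤ 2 * nr B + nr D + 1 := by
  classical
  set s := A.roots.toFinset \ B.roots.toFinset with hs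
  set t := B.roots.toFinset ∪ D.roots.toFinset with ht
  have h1 : s.card ≤ t.card + 1 := by
    apply Finset.card_le_of_interleaved
    intro x hx y hy hxy _
    rw [hs, Finset.mem_sdiff, Multiset.mem_toFinset, Multiset.mem_toFinset, mem_roots hA,
      mem_roots hB] at hx hy
    by_cases hBr : ∃ z, x < z ∧ z < y ∧ B.eval z = 0
    · obtain ⟨z, hz1, hz2, hz3⟩ := hBr
      refine ⟨z, ?_, hz1, hz2⟩
      rw [ht, Finset.mem_union, Multiset.mem_toFinset, mem_roots hB]
      exact Or.inl hz3
    · push Not at hBr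
      have hBne : ∀ z ∈ Set.Icc x y, B.eval z ≠ 0 := by
        intro z hz
        rcases eq_or_lt_of_le hz.1 with h2 | h2
        · rw [← h2]; exact hx.2
        · rcases eq_or_lt_of_le hz.2 with h3 | h3
          · rw [h3]; exact hy.2
          · exact hBr z h2 h3
      obtain ⟨c, hc, hc0⟩ := exists_hasDerivAt_eq_zero (f := fun z => A.eval z / B.eval z)
        (f' := fun z => ((derivative A).eval z * B.eval z - A.eval z * (derivative B).eval z) /
          (B.eval z) ^ 2) hxy
        (by
          apply ContinuousOn.div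
          · exact A.continuous.continuousOn
          · exact B.continuous.continuousOn
          · exact hBne)
        (by
          have e1 : A.eval x = 0 := hx.1
          have e2 : A.eval y = 0 := hy.1
          simp [e1, e2])
        (by
          intro z hz
          exact (A.hasDerivAt z).div (B.hasDerivAt z) (hBne z (Set.Ioo_subset_Icc_self hz)))
      refine ⟨c, ?_, hc.1, hc.2⟩
      rw [ht, Finset.mem_union, Multiset.mem_toFinset, Multiset.mem_toFinset, mem_roots hD]
      right
      have hBc := hBne c (Set.Ioo_subset_Icc_self hc)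
      rw [div_eq_zero_iff] at hc0
      have h4 := hc0.resolve_right (pow_ne_zero _ hBc)
      rw [IsRoot, ← h, eval_sub, eval_mul, eval_mul]
      linear_combination h4
  have h2 : A.roots.toFinset.card ≤ s.card + B.roots.toFinset.card := by
    have : A.roots.toFinset ⊆ s ∪ B.roots.toFinset := by
      rw [hs]
      exact Finset.subset_union_left.trans (Finset.sdiff_union_self_eq_union).symm.subset
    exact (Finset.card_le_card this).trans (Finset.card_union_le _ _)
  have h3 : t.card ≤ B.roots.toFinset.card + D.roots.toFinset.card := Finset.card_union_le _ _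
  unfold nr
  omega

lemma nr_chain {f : ℕ → ℝ[X]} {m : ℕ} (hW : ∀ j ≤ m, W f j ≠ 0) (g : ℝ[X]) (hg : G f m g m = 0) :
    ∀ n j, j + n = m → G f j g j ≠ 0 →
      nr (G f j g j) ≤ ∑ i ∈ Finset.range n, (2 * nr (W f (j + i + 1)) + nr (W f (j + i)) + 1) := by
  intro n
  induction n with
  | zero =>
    intro j hj hG
    rw [add_zero] at hj
    rw [hj] at hG
    exact absurd hg hG
  | succ n ih =>
    intro j hj hG
    have hs := star (hW j (by omega)) g
    have hWj := hW j (by omega)
    have hWj1 := hW (j + 1) (by omega)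
    rw [Finset.sum_range_succ']
    by_cases hG1 : G f (j + 1) g (j + 1) = 0
    · rw [hG1, mul_zero, sub_eq_zero] at hs
      obtain ⟨c, hc⟩ := exists_const_of_wr (A := G f j g j) hWj1 (by
        rw [mul_comm, hs, mul_comm])
      have hc0 : c ≠ 0 := by
        intro h0
        rw [h0, C_0, zero_mul] at hc
        exact hG hc
      rw [hc, nr_C_mul hc0]
      simp only [add_zero]
      omega
    · have h1 := ih (j + 1) (by omega) hG1
      have h2 : W f j * G f (j + 1) g (j + 1) ≠ 0 := mul_ne_zero hWj hG1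
      have h3 := rolle_step hG hWj1 h2 hs
      have h4 := nr_mul_le h2
      have h5 : ∑ i ∈ Finset.range n, (2 * nr (W f (j + 1 + i + 1)) + nr (W f (j + 1 + i)) + 1) =
          ∑ k ∈ Finset.range n, (2 * nr (W f (j + (k + 1) + 1)) + nr (W f (j + (k + 1))) + 1) := by
        apply Finset.sum_congr rfl
        intro i _
        have e1 : j + 1 + i = j + (i + 1) := by ring
        rw [e1]
      rw [h5] at h1
      simp only [add_zero]
      omega

lemma G_zero_zero (f : ℕ → ℝ[X]) (g : ℝ[X]) : G f 0 g 0 = g := by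
  unfold G
  exact (det_fin_one _).trans (by simp)

lemma G_span {K : Type*} [Field K] (f : ℕ → K[X]) (m : ℕ) (a : ℕ → K) (r : ℕ) :
    G f m (∑ j ∈ Finset.range m, C (a j) * f j) r = 0 := by
  rw [G_eq_updateCol]
  set M : Matrix (Fin (m + 1)) (Fin (m + 1)) K[X] := (Matrix.of fun i j : Fin (m + 1) =>
      derivative^[if (i : ℕ) < m then (i : ℕ) else r] (if (j : ℕ) < m then f j else 0)) with hM
  have h1 := det_updateCol_sum M (Fin.last m) (fun k => if (k : ℕ) < m then C (a k) else 0)
  simp only [Fin.val_last, lt_irrefl, if_false, smul_eq_mul, zero_mul] at h1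
  rw [← h1]
  congr 1
  congr 1
  funext i
  rw [Fin.sum_univ_castSucc]
  simp only [Fin.val_last, lt_irrefl, if_false, zero_mul, add_zero, Fin.val_castSucc, Fin.is_lt,
    if_true, hM, of_apply]
  rw [iterate_derivative_sum, Finset.sum_range]
  apply Finset.sum_congr rfl
  intro j _
  rw [iterate_derivative_C_mul]

/-- Real zeros of linear combinations of `h j * p j ^ d`. -/
theorem nr_sum_powers_le (l d Δ : ℕ) (h p : Fin l → ℝ[X]) (hh : ∀ i, (h i).natDegree ≤ Δ)
    (hp : ∀ i, (p i).natDegree ≤ Δ) (hld : l ≤ d + 1)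
    (hind : LinearIndependent ℝ (fun j => h j * p j ^ d)) (a : Fin l → ℝ)
    (ha : ∑ j, C (a j) * (h j * p j ^ d) ≠ 0) :
    nr (∑ j, C (a j) * (h j * p j ^ d)) ≤ l * (l + 1) ^ 2 * Δ + l := by
  set f : ℕ → ℝ[X] := fun j => if hj : j < l then h ⟨j, hj⟩ * p ⟨j, hj⟩ ^ d else 0 with hf
  set a' : ℕ → ℝ := fun j => if hj : j < l then a ⟨j, hj⟩ else 0 with ha'
  set g := ∑ j, C (a j) * (h j * p j ^ d) with hg
  have hgr : g = ∑ j ∈ Finset.range l, C (a' j) * f j := by
    rw [hg, Finset.sum_range]
    apply Finset.sum_congr rfl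
    intro j _
    simp [hf, ha']
  have hWf : ∀ j (hj : j ≤ l), W f j = Wr (fun i : Fin j => h (Fin.castLE hj i) * p (Fin.castLE hj i) ^ d) := by
    intro j hj
    rw [W_eq_Wr]
    congr 1
    funext i
    have : (i : ℕ) < l := by omega
    simp [hf, this, Fin.castLE]
  have hW : ∀ j ≤ l, W f j ≠ 0 := by
    intro j hj
    rw [hWf j hj]
    apply Wr_ne_zero
    exact hind.comp (Fin.castLE hj) (Fin.castLE_injective hj)
  have hnrW : ∀ j ≤ l, nr (W f j) ≤ j * (j + 1) * Δ := by
    intro j hj
    have hWj := hW j hj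
    obtain ⟨V, hV, hVd⟩ := Wr_powers (fun i : Fin j => h (Fin.castLE hj i))
      (fun i : Fin j => p (Fin.castLE hj i)) d (by omega)
    rw [hWf j hj] at hWj ⊢
    rw [hV] at hWj ⊢
    refine (nr_mul_le hWj).trans ?_
    have h1 : nr ((∏ i : Fin j, p (Fin.castLE hj i)) ^ (d + 1 - j)) ≤ j * Δ := by
      refine (nr_pow_le _ _).trans ((nr_le_natDegree _).trans ((natDegree_prod_le _ _).trans ?_))
      calc ∑ i : Fin j, (p (Fin.castLE hj i)).natDegree ≤ ∑ i : Fin j, Δ :=
            Finset.sum_le_sum fun i _ => hp _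
        _ = j * Δ := by simp
    have h2 : nr V ≤ j * (Δ + (j - 1) * Δ) := by
      refine (nr_le_natDegree _).trans (hVd.trans ?_)
      calc _ ≤ ∑ i : Fin j, (Δ + (j - 1) * Δ) :=
            Finset.sum_le_sum fun i _ => add_le_add (hh _) (Nat.mul_le_mul_left _ (hp _))
        _ = _ := by simp
    refine (add_le_add h1 h2).trans (le_of_eq ?_)
    rcases Nat.eq_zero_or_pos j with h0 | h0
    · subst h0; simp
    · obtain ⟨j', rfl⟩ : ∃ j', j = j' + 1 := ⟨j - 1, by omega⟩
      simp only [Nat.add_sub_cancel]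
      ring
  have hG0 : G f 0 g 0 = g := G_zero_zero f g
  have hGl : G f l g l = 0 := by rw [hgr]; exact G_span f l a' l
  have h1 := nr_chain hW g hGl l 0 (by omega) (by rw [hG0]; exact ha)
  rw [hG0] at h1
  refine h1.trans ?_
  calc ∑ i ∈ Finset.range l, (2 * nr (W f (0 + i + 1)) + nr (W f (0 + i)) + 1)
      ≤ ∑ i ∈ Finset.range l, (2 * ((i + 1) * (i + 2) * Δ) + i * (i + 1) * Δ + 1) := by
        apply Finset.sum_le_sum
        intro i hi
        rw [Finset.mem_range] at hi
        have e1 := hnrW (i + 1) (by omega)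
        have e2 := hnrW i (by omega)
        rw [zero_add]
        have e3 : (i + 1) * (i + 1 + 1) * Δ = (i + 1) * (i + 2) * Δ := by ring
        omega
    _ = l * (l + 1) ^ 2 * Δ + l := by
        clear * -
        induction l with
        | zero => simp
        | succ l ih => rw [Finset.sum_range_succ, ih]; ring

end Pool.Agent.Helper35_Wr
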