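import Mathlib
import Pool.Agent.Helper35_Wr.Roots
import Pool.Agent.Helper35_Wr.Proj
import Pool.Agent.Helper35_Wr.Merge

set_option autoImplicit false

/-!
Hitting set over the reals for sums of high powers of sparse polynomials.
-/

namespace Pool.Agent.Helper35_Wr

open Polynomial

lemma card_supports_le {R : Type*} [CommSemiring R] {n k S D E : ℕ} {h f : Fin k → MvPolynomial ℕ R}
    (hf : ∀ i, Sparse n S D (f i)) (hh : ∀ i, Sparse n S E (h i)) :
    (Finset.univ.biUnion fun i => (f i).support ∪ (h i).support).card ≤ 2 * k * S := by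
  calc _ ≤ ∑ i : Fin k, ((f i).support ∪ (h i).support).card := Finset.card_biUnion_le
    _ ≤ ∑ i : Fin k, (S + S) := by
        apply Finset.sum_le_sum
        intro i _
        exact (Finset.card_union_le _ _).trans (add_le_add (hf i).card_le (hh i).card_le)
    _ = 2 * k * S := by simp; ring

/-- The common setup: a good multiplier, and the reduced sum. -/
lemma exists_tau_family {R : Type*} [CommSemiring R] {n k S D E q : ℕ} (hq : q.Prime)
    (hbig : 4 * n * k ^ 2 * S ^ 2 + D < q) {h f : Fin k → MvPolynomial ℕ R}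
    (hf : ∀ i, Sparse n S D (f i)) (hh : ∀ i, Sparse n S E (h i)) (hED : E ≤ D) :
    ∃ τ < q, Set.InjOn (wt q τ)
      ((Finset.univ.biUnion fun i => (f i).support ∪ (h i).support : Finset (ℕ →₀ ℕ)) : Set (ℕ →₀ ℕ)) := by
  apply exists_tau n D q hq
  · intro α hα j
    rw [Finset.mem_biUnion] at hα
    obtain ⟨i, -, hα⟩ := hα
    rw [Finset.mem_union] at hα
    rcases hα with hα | hα
    · exact (hf i).exp_le α hα j
    · exact ((hh i).exp_le α hα j).trans hED
  · intro α hα j hj
    rw [Finset.mem_biUnion] at hα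
    obtain ⟨i, -, hα⟩ := hα
    rw [Finset.mem_union] at hα
    rcases hα with hα | hα
    · exact (hf i).vars α hα j hj
    · exact (hh i).vars α hα j hj
  · have h1 := card_supports_le hf hh
    have h2 : n * (Finset.univ.biUnion fun i => (f i).support ∪ (h i).support).card ^ 2 ≤
        n * (2 * k * S) ^ 2 := Nat.mul_le_mul_left _ (Nat.pow_le_pow_left h1 2)
    have h3 : n * (2 * k * S) ^ 2 = 4 * n * k ^ 2 * S ^ 2 := by ring
    omega

theorem real_hitting (n k S D E q d : ℕ) (hq : q.Prime) (hbig : 4 * n * k ^ 2 * S ^ 2 + D < q)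
    (h f : Fin k → MvPolynomial ℕ ℝ) (hf : ∀ i, Sparse n S D (f i)) (hh : ∀ i, Sparse n S E (h i))
    (hED : E ≤ D) (hd1 : 1 ≤ d) (hd : (k - 1) * (k - 1 + n * E * q) ≤ d)
    (hF : ∑ i, h i * f i ^ d ≠ 0) :
    ∃ τ < q, proj ℝ q τ (∑ i, h i * f i ^ d) ≠ 0 ∧
      ∃ t : ℕ, 1 ≤ t ∧ t ≤ k * (k + 1) ^ 2 * (n * D * q) + k + 1 ∧
        MvPolynomial.eval (fun j => (t : ℝ) ^ (τ ^ j % q)) (∑ i, h i * f i ^ d) ≠ 0 := by
  classical
  obtain ⟨τ, hτ, hinj⟩ := exists_tau_family hq hbig hf hh hED
  set M : Finset (ℕ →₀ ℕ) := Finset.univ.biUnion fun i => (f i).support ∪ (h i).support with hM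
  have hfM : ∀ i, (f i).support ⊆ M := fun i => Finset.subset_union_left.trans
    (Finset.subset_biUnion_of_mem (fun i => (f i).support ∪ (h i).support) (Finset.mem_univ i))
  set Mh : Finset (ℕ →₀ ℕ) := Finset.univ.biUnion fun i => (h i).support with hMh
  have hMhM : Mh ⊆ M := by
    intro α hα
    rw [hMh, Finset.mem_biUnion] at hα
    obtain ⟨i, hi, hα⟩ := hα
    rw [hM, Finset.mem_biUnion]
    exact ⟨i, hi, Finset.mem_union_right _ hα⟩
  obtain ⟨s', -, h', e1, e2, e3, e4, -, e6⟩ := merge (Set.univ : Set ℝ) (fun _ => 0)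
    (fun _ _ => le_rfl) d hd1 (fun _ _ _ => le_rfl) f Mh Finset.univ h
    (fun i hi => Finset.subset_biUnion_of_mem (fun i => (h i).support) hi)
  refine ⟨τ, hτ, ?_⟩
  set l := s'.card with hl
  have hlk : l ≤ k := by
    rw [hl]
    exact (Finset.card_le_univ _).trans (by simp)
  have hl0 : 0 < l := by
    rw [hl, Finset.card_pos]
    by_contra hne
    rw [Finset.not_nonempty_iff_eq_empty] at hne
    rw [hne, Finset.sum_empty] at e6
    exact hF e6.symm
  set e : Fin l ≃ s' := s'.equivFin.symm with he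
  set H : Fin l → ℝ[X] := fun j => proj ℝ q τ (h' (e j)) with hH
  set P : Fin l → ℝ[X] := fun j => proj ℝ q τ (f (e j)) with hP
  have hsum : proj ℝ q τ (∑ i, h i * f i ^ d) = ∑ j, C (1 : ℝ) * (H j * P j ^ d) := by
    rw [← e6, map_sum, ← Finset.sum_coe_sort s', ← e.sum_comp]
    apply Finset.sum_congr rfl
    intro j _
    rw [map_mul, map_pow, C_1, one_mul]
  have hH0 : ∀ j, H j ≠ 0 := fun j =>
    proj_ne_zero hinj ((e1 _ (e j).2).trans hMhM) (e2 _ (e j).2)
  have hP0 : ∀ j, P j ≠ 0 := fun j => proj_ne_zero hinj (hfM _) (e3 _ (e j).2)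
  have hHdeg : ∀ j, (H j).natDegree ≤ n * E * q := by
    intro j
    apply natDegree_proj_le hq.pos
    · intro α hα i
      have := e1 _ (e j).2 hα
      rw [hMh, Finset.mem_biUnion] at this
      obtain ⟨i', -, hi'⟩ := this
      exact (hh i').exp_le α hi' i
    · intro α hα i hi
      have := e1 _ (e j).2 hα
      rw [hMh, Finset.mem_biUnion] at this
      obtain ⟨i', -, hi'⟩ := this
      exact (hh i').vars α hi' i hi
  have hPdeg : ∀ j, (P j).natDegree ≤ n * D * q := fun j =>
    natDegree_proj_le hq.pos (hf _).exp_le (hf _).vars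
  have hHdeg' : ∀ j, (H j).natDegree ≤ n * D * q := fun j => (hHdeg j).trans (by
    apply Nat.mul_le_mul_right
    apply Nat.mul_le_mul_left
    exact hED)
  have hnp : ∀ i j, i ≠ j → NonProp (P i) (P j) := by
    intro i j hij a b hab
    have hne : (e i : Fin k) ≠ e j := by
      intro h0
      exact hij (e.injective (Subtype.ext h0))
    have h1 : proj ℝ q τ (MvPolynomial.C a * f (e i) - MvPolynomial.C b * f (e j)) = 0 := by
      rw [map_sub, map_mul, map_mul]
      have hC : ∀ c : ℝ, proj ℝ q τ (MvPolynomial.C c) = C c := by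
        intro c
        unfold proj
        rw [MvPolynomial.aeval_C]
        rfl
      rw [hC, hC]
      exact sub_eq_zero.mpr hab
    have h2 : MvPolynomial.C a * f (e i) - MvPolynomial.C b * f (e j) = 0 := by
      by_contra hne'
      refine proj_ne_zero hinj ?_ hne' h1
      refine (MvPolynomial.support_sub _ _ _).trans (Finset.union_subset ?_ ?_)
      · intro α hα
        apply hfM (e i)
        rw [MvPolynomial.mem_support_iff, MvPolynomial.coeff_C_mul] at hα
        rw [MvPolynomial.mem_support_iff]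
        exact right_ne_zero_of_mul hα
      · intro α hα
        apply hfM (e j)
        rw [MvPolynomial.mem_support_iff, MvPolynomial.coeff_C_mul] at hα
        rw [MvPolynomial.mem_support_iff]
        exact right_ne_zero_of_mul hα
    rw [sub_eq_zero] at h2
    by_cases hb : b = 0
    · rw [hb, MvPolynomial.C_0, zero_mul, mul_eq_zero] at h2
      refine ⟨?_, hb⟩
      rcases h2 with h2 | h2
      · exact MvPolynomial.C_eq_zero.mp h2
      · exact absurd h2 (e3 _ (e i).2)
    · exfalso
      apply e4 _ (e i).2 _ (e j).2 hne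
      refine ⟨a / b, trivial, ?_⟩
      have h3 : MvPolynomial.C b * f (e j) = MvPolynomial.C b * (MvPolynomial.C (a / b) * f (e i)) := by
        rw [← h2, ← mul_assoc, ← MvPolynomial.C_mul, mul_div_cancel₀ _ hb]
      exact mul_left_cancel₀ (by rw [Ne, MvPolynomial.C_eq_zero]; exact hb) h3
  have hdl : (l - 1) * (l - 1 + n * E * q) ≤ d := by
    refine le_trans ?_ hd
    apply Nat.mul_le_mul
    · omega
    · omega
  have hind := indep_high_powers (n * E * q) d l H P hH0 hP0 hHdeg hnp hdl
  have hne : ∑ j, C (1 : ℝ) * (H j * P j ^ d) ≠ 0 := by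
    intro h0
    exact one_ne_zero (hind (fun _ => 1) h0 ⟨0, hl0⟩)
  have hlin : LinearIndependent ℝ (fun j => H j * P j ^ d) := by
    rw [Fintype.linearIndependent_iff]
    intro c hc
    apply hind c
    rw [← hc]
    apply Finset.sum_congr rfl
    intro i _
    rw [smul_eq_C_mul]
  have hld : l ≤ d + 1 := by
    rcases Nat.lt_or_ge l 2 with h2 | h2
    · omega
    · have : (l - 1) * 1 ≤ (l - 1) * (l - 1 + n * E * q) := Nat.mul_le_mul_left _ (by omega)
      omega
  have hnr := nr_sum_powers_le l d (n * D * q) H P hHdeg' hPdeg hld hlin (fun _ => 1) hne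
  have hT : l * (l + 1) ^ 2 * (n * D * q) + l ≤ k * (k + 1) ^ 2 * (n * D * q) + k := by
    apply Nat.add_le_add _ hlk
    apply Nat.mul_le_mul_right
    apply Nat.mul_le_mul hlk
    apply Nat.pow_le_pow_left
    omega
  set T := k * (k + 1) ^ 2 * (n * D * q) + k with hTdef
  refine ⟨by rw [hsum]; exact hne, ?_⟩
  by_contra hcon
  push Not at hcon
  have hsub : (Finset.Icc 1 (T + 1)).image (fun t : ℕ => (t : ℝ)) ⊆
      (∑ j, C (1 : ℝ) * (H j * P j ^ d)).roots.toFinset := by
    intro x hx
    rw [Finset.mem_image] at hx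
    obtain ⟨t, ht, rfl⟩ := hx
    rw [Finset.mem_Icc] at ht
    rw [Multiset.mem_toFinset, mem_roots hne, IsRoot, ← hsum, eval_proj]
    exact hcon t ht.1 ht.2
  have hc1 := Finset.card_le_card hsub
  rw [Finset.card_image_of_injective _ Nat.cast_injective, Nat.card_Icc] at hc1
  have hc2 : (∑ j, C (1 : ℝ) * (H j * P j ^ d)).roots.toFinset.card ≤ T := hnr.trans hT
  omega

end Pool.Agent.Helper35_Wr
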