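import Mathlib
import Pool.Agent.Helper35_Wr.RealTest
import Pool.Agent.Helper35_Wr.Order
import Pool.Agent.Helper78_ACIT.Prime

set_option autoImplicit false

/-!
Test in small finite rings for sums of high powers of sparse integer polynomials.
-/

namespace Pool.Agent.Helper35_Wr

open Polynomial

lemma prod_natAbs_le {ι : Type*} (s : Finset ι) (z : ι → ℤ) (c m : ℕ) (hz : ∀ i ∈ s, (z i).natAbs ≤ 2 ^ m)
    (hc : s.card ≤ c) : (∏ i ∈ s, z i).natAbs ≤ 2 ^ (c * m) := by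
  have h0 : (∏ i ∈ s, z i).natAbs = ∏ i ∈ s, (z i).natAbs := map_prod Int.natAbsHom z s
  rw [h0]
  calc ∏ i ∈ s, (z i).natAbs ≤ (2 ^ m) ^ s.card := Finset.prod_le_pow_card _ _ _ hz
    _ = 2 ^ (m * s.card) := by rw [← pow_mul]
    _ ≤ 2 ^ (c * m) := Nat.pow_le_pow_right (by norm_num) (by rw [mul_comm]; exact Nat.mul_le_mul_right _ hc)

/-- Large exponents. -/
lemma large_case (k Δ d b q τ : ℕ) (M : Finset (ℕ →₀ ℕ)) (hinj : Set.InjOn (wt q τ) M)
    (l : ℕ) (hl0 : 0 < l) (hlk : l ≤ k) (H P : Fin l → MvPolynomial ℕ ℤ)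
    (hHM : ∀ i, (H i).support ⊆ M) (hPM : ∀ i, (P i).support ⊆ M)
    (hwt : ∀ α ∈ M, wt q τ α ≤ Δ) (hH0 : ∀ i, H i ≠ 0) (hP0 : ∀ i, P i ≠ 0)
    (hHc : ∀ i α, ((H i).coeff α).natAbs ≤ 2 ^ (k + b)) (hPc : ∀ i α, ((P i).coeff α).natAbs ≤ 2 ^ b)
    (hnp : ∀ i j, i ≠ j → ∃ α ∈ M, ∃ β ∈ M,
      (P i).coeff α * (P j).coeff β - (P i).coeff β * (P j).coeff α ≠ 0)
    (hd : k * (k + 1) * Δ < d) (hdb : d ≤ 2 ^ b) (L : ℕ)
    (hL : (k * Δ) * (k * Δ) + k * k * (2 * b + 1) + k * (k + 2 * b) +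
      Δ * (2 * (k * (k + 1) * Δ) + 1) * (b + Δ + k * (k + 1) * Δ) ≤ L) (N : ℕ)
    (hN : k * k * Δ + k ≤ N) :
    ∃ p, p.Prime ∧ p ≤ 64 * (L + 1) ^ 2 ∧ ∃ x : ZMod p, ¬ (X - C x) ^ N ∣
      proj (ZMod p) q τ (MvPolynomial.map (Int.castRingHom (ZMod p)) (∑ i, H i * P i ^ d)) := by
  classical
  set B := k * (k + 1) * Δ with hB
  choose α hα β hβ hm using hnp
  have hHex : ∀ i, ∃ γ ∈ M, (H i).coeff γ ≠ 0 := by
    intro i
    obtain ⟨γ, hγ⟩ := MvPolynomial.ne_zero_iff.mp (hH0 i)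
    exact ⟨γ, hHM i (MvPolynomial.mem_support_iff.mpr hγ), hγ⟩
  have hPex : ∀ i, ∃ γ ∈ M, (P i).coeff γ ≠ 0 := by
    intro i
    obtain ⟨γ, hγ⟩ := MvPolynomial.ne_zero_iff.mp (hP0 i)
    exact ⟨γ, hPM i (MvPolynomial.mem_support_iff.mpr hγ), hγ⟩
  choose γ hγM hγ using hHex
  choose δ hδM hδ using hPex
  set mm : Fin l × Fin l → ℤ := fun x => if hx : x.1 ≠ x.2 then
    (P x.1).coeff (α x.1 x.2 hx) * (P x.2).coeff (β x.1 x.2 hx) -
      (P x.1).coeff (β x.1 x.2 hx) * (P x.2).coeff (α x.1 x.2 hx) else 1 with hmm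
  set Z1 : ℤ := ((k * Δ).factorial : ℤ) with hZ1
  set Z2 : ℤ := ∏ x : Fin l × Fin l, mm x with hZ2
  set Z3 : ℤ := ∏ i : Fin l, ((H i).coeff (γ i) * (P i).coeff (δ i)) with hZ3
  set Z4 : ℤ := ∏ x ∈ (Finset.Icc (1 : ℤ) Δ) ×ˢ (Finset.Icc (-(B : ℤ)) B), ((d : ℤ) * x.1 - x.2) with hZ4
  have hmm0 : ∀ x, mm x ≠ 0 := by
    intro x
    rw [hmm]
    simp only
    split_ifs with hx
    · exact hm _ _ hx
    · exact one_ne_zero
  have hZ10 : Z1 ≠ 0 := by rw [hZ1]; exact_mod_cast (Nat.factorial_ne_zero _)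
  have hZ20 : Z2 ≠ 0 := Finset.prod_ne_zero_iff.mpr fun x _ => hmm0 x
  have hZ30 : Z3 ≠ 0 := Finset.prod_ne_zero_iff.mpr fun i _ => mul_ne_zero (hγ i) (hδ i)
  have hZ40 : Z4 ≠ 0 := by
    rw [hZ4, Finset.prod_ne_zero_iff]
    intro x hx
    rw [Finset.mem_product, Finset.mem_Icc, Finset.mem_Icc] at hx
    have h1 : (B : ℤ) < d := by exact_mod_cast hd
    have h2 : (d : ℤ) * 1 ≤ d * x.1 := mul_le_mul_of_nonneg_left hx.1.1 (by positivity)
    intro h0
    linarith [hx.2.2]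
  have hb1 : Z1.natAbs ≤ 2 ^ ((k * Δ) * (k * Δ)) := by
    rw [hZ1, Int.natAbs_natCast, pow_mul]
    refine (Nat.factorial_le_pow _).trans ?_
    exact Nat.pow_le_pow_left (Nat.lt_two_pow_self).le _
  have hb2 : Z2.natAbs ≤ 2 ^ (k * k * (2 * b + 1)) := by
    apply prod_natAbs_le
    · intro x _
      rw [hmm]
      simp only
      split_ifs with hx
      · refine (Int.natAbs_sub_le _ _).trans ?_
        rw [Int.natAbs_mul, Int.natAbs_mul]
        calc _ ≤ 2 ^ b * 2 ^ b + 2 ^ b * 2 ^ b :=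
              add_le_add (Nat.mul_le_mul (hPc _ _) (hPc _ _)) (Nat.mul_le_mul (hPc _ _) (hPc _ _))
          _ = 2 ^ (2 * b + 1) := by ring
      · simp [Nat.one_le_two_pow]
    · rw [Finset.card_univ, Fintype.card_prod, Fintype.card_fin]
      exact Nat.mul_le_mul hlk hlk
  have hb3 : Z3.natAbs ≤ 2 ^ (k * (k + 2 * b)) := by
    apply prod_natAbs_le
    · intro i _
      rw [Int.natAbs_mul]
      calc _ ≤ 2 ^ (k + b) * 2 ^ b := Nat.mul_le_mul (hHc _ _) (hPc _ _)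
        _ = _ := by rw [← pow_add]; ring_nf
    · simpa using hlk
  have hb4 : Z4.natAbs ≤ 2 ^ (Δ * (2 * B + 1) * (b + Δ + B)) := by
    apply prod_natAbs_le
    · intro x hx
      rw [Finset.mem_product, Finset.mem_Icc, Finset.mem_Icc] at hx
      have h1 : ((d : ℤ) * x.1 - x.2).natAbs ≤ d * Δ + B := by
        have h2 : |(d : ℤ) * x.1 - x.2| ≤ (d * Δ + B : ℕ) := by
          have h3 : (d : ℤ) * x.1 ≤ d * Δ := mul_le_mul_of_nonneg_left hx.1.2 (by positivity)
          have h4 : (0 : ℤ) ≤ (d : ℤ) * x.1 := mul_nonneg (by positivity) (by linarith [hx.1.1])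
          push_cast
          rw [abs_le]
          constructor <;> linarith [hx.2.1, hx.2.2]
        have h5 : ((((d : ℤ) * x.1 - x.2).natAbs : ℕ) : ℤ) ≤ (d * Δ + B : ℕ) := by
          rw [Int.natCast_natAbs]; exact h2
        exact_mod_cast h5
      refine h1.trans ?_
      calc d * Δ + B ≤ 2 ^ b * Δ + 2 ^ b * B := by
            apply add_le_add (Nat.mul_le_mul_right _ hdb)
            exact Nat.le_mul_of_pos_left _ (by positivity)
        _ = 2 ^ b * (Δ + B) := by ring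
        _ ≤ 2 ^ b * 2 ^ (Δ + B) := Nat.mul_le_mul_left _ (Nat.lt_two_pow_self).le
        _ = 2 ^ (b + Δ + B) := by rw [← pow_add]; ring_nf
    · rw [Finset.card_product, Int.card_Icc, Int.card_Icc]
      apply Nat.mul_le_mul <;> omega
  obtain ⟨p, hp, hpL, hpd⟩ := Pool.Agent.Helper78_ACIT.exists_prime_not_dvd
    (Z1 * Z2 * Z3 * Z4).natAbs L
    (Int.natAbs_ne_zero.mpr (mul_ne_zero (mul_ne_zero (mul_ne_zero hZ10 hZ20) hZ30) hZ40)) (by
      rw [Int.natAbs_mul, Int.natAbs_mul, Int.natAbs_mul]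
      calc _ ≤ 2 ^ ((k * Δ) * (k * Δ)) * 2 ^ (k * k * (2 * b + 1)) * 2 ^ (k * (k + 2 * b)) *
            2 ^ (Δ * (2 * B + 1) * (b + Δ + B)) := by
            apply Nat.mul_le_mul _ hb4
            apply Nat.mul_le_mul _ hb3
            exact Nat.mul_le_mul hb1 hb2
        _ = 2 ^ ((k * Δ) * (k * Δ) + k * k * (2 * b + 1) + k * (k + 2 * b) +
            Δ * (2 * B + 1) * (b + Δ + B)) := by rw [← pow_add, ← pow_add, ← pow_add]
        _ ≤ 2 ^ L := Nat.pow_le_pow_right (by norm_num) hL)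
  refine ⟨p, hp, hpL, ?_⟩
  have : Fact p.Prime := ⟨hp⟩
  have hpz : ¬ (p : ℤ) ∣ Z1 * Z2 * Z3 * Z4 := by
    intro h
    exact hpd (Int.natCast_dvd.mp h)
  have hp1 : ¬ (p : ℤ) ∣ Z1 := fun h => hpz (((h.mul_right _).mul_right _).mul_right _)
  have hp2 : ¬ (p : ℤ) ∣ Z2 := fun h => hpz (((h.mul_left _).mul_right _).mul_right _)
  have hp3 : ¬ (p : ℤ) ∣ Z3 := fun h => hpz ((h.mul_left _).mul_right _)
  have hp4 : ¬ (p : ℤ) ∣ Z4 := fun h => hpz (h.mul_left _)
  have hpk : k * Δ < p := by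
    by_contra hcon
    apply hp1
    rw [hZ1]
    exact_mod_cast (hp.dvd_factorial.mpr (by omega))
  have hcast : ∀ z : ℤ, ¬ (p : ℤ) ∣ z → (z : ZMod p) ≠ 0 := by
    intro z hz h0
    exact hz ((ZMod.intCast_zmod_eq_zero_iff_dvd z p).mp h0)
  set φ := Int.castRingHom (ZMod p) with hφ
  set Hp : Fin l → (ZMod p)[X] := fun i => proj (ZMod p) q τ (MvPolynomial.map φ (H i)) with hHp
  set Pp : Fin l → (ZMod p)[X] := fun i => proj (ZMod p) q τ (MvPolynomial.map φ (P i)) with hPp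
  have hsupp : ∀ F : MvPolynomial ℕ ℤ, F.support ⊆ M → (MvPolynomial.map φ F).support ⊆ M :=
    fun F hF => (MvPolynomial.support_map_subset _ _).trans hF
  have hcf : ∀ F : MvPolynomial ℕ ℤ, F.support ⊆ M → ∀ γ ∈ M,
      (proj (ZMod p) q τ (MvPolynomial.map φ F)).coeff (wt q τ γ) = ((F.coeff γ : ℤ) : ZMod p) := by
    intro F hF γ hγ
    rw [coeff_proj hinj (hsupp F hF) hγ, MvPolynomial.coeff_map]
    rfl
  have hHp0 : ∀ i, Hp i ≠ 0 := by
    intro i h0
    have h1 := hcf (H i) (hHM i) (γ i) (hγM i)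
    have h2 : (proj (ZMod p) q τ (MvPolynomial.map φ (H i))) = 0 := h0
    rw [h2, coeff_zero] at h1
    refine hcast _ ?_ h1.symm
    intro h3
    exact hp3 ((h3.mul_right _).trans (Finset.dvd_prod_of_mem _ (Finset.mem_univ i)))
  have hPp0 : ∀ i, Pp i ≠ 0 := by
    intro i h0
    have h1 := hcf (P i) (hPM i) (δ i) (hδM i)
    have h2 : (proj (ZMod p) q τ (MvPolynomial.map φ (P i))) = 0 := h0
    rw [h2, coeff_zero] at h1
    refine hcast _ ?_ h1.symm
    intro h3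
    exact hp3 ((h3.mul_left _).trans (Finset.dvd_prod_of_mem _ (Finset.mem_univ i)))
  have hdeg : ∀ F : MvPolynomial ℕ ℤ, F.support ⊆ M →
      (proj (ZMod p) q τ (MvPolynomial.map φ F)).natDegree ≤ Δ := by
    intro F hF
    rw [proj_eq_sum]
    apply natDegree_sum_le_of_forall_le
    intro β hβ
    exact (natDegree_C_mul_X_pow_le _ _).trans (hwt _ (hsupp F hF hβ))
  have hnp' : ∀ i j, i ≠ j → NonProp (Pp i) (Pp j) := by
    intro i j hij a c hac
    have hmij : ((((P i).coeff (α i j hij) * (P j).coeff (β i j hij) -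
        (P i).coeff (β i j hij) * (P j).coeff (α i j hij) : ℤ)) : ZMod p) ≠ 0 := by
      apply hcast
      intro h3
      apply hp2
      have h4 : mm (i, j) = (P i).coeff (α i j hij) * (P j).coeff (β i j hij) -
        (P i).coeff (β i j hij) * (P j).coeff (α i j hij) := by
        rw [hmm]
        simp [hij]
      rw [← h4] at h3
      exact h3.trans (Finset.dvd_prod_of_mem _ (Finset.mem_univ (i, j)))
    have h1 := congrArg (fun Q => Q.coeff (wt q τ (α i j hij))) hac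
    have h2 := congrArg (fun Q => Q.coeff (wt q τ (β i j hij))) hac
    simp only [coeff_C_mul] at h1 h2
    rw [hPp] at h1 h2
    simp only at h1 h2
    rw [hcf _ (hPM i) _ (hα _ _ _), hcf _ (hPM j) _ (hα _ _ _)] at h1
    rw [hcf _ (hPM i) _ (hβ _ _ _), hcf _ (hPM j) _ (hβ _ _ _)] at h2
    push_cast at hmij
    constructor
    · have h5 : a * ((((P i).coeff (α i j hij) : ℤ) : ZMod p) * (((P j).coeff (β i j hij) : ℤ) : ZMod p) -
        (((P i).coeff (β i j hij) : ℤ) : ZMod p) * (((P j).coeff (α i j hij) : ℤ) : ZMod p)) = 0 := by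
        linear_combination (((P j).coeff (β i j hij) : ℤ) : ZMod p) * h1 -
          (((P j).coeff (α i j hij) : ℤ) : ZMod p) * h2
      exact (mul_eq_zero.mp h5).resolve_right hmij
    · have h5 : c * ((((P i).coeff (α i j hij) : ℤ) : ZMod p) * (((P j).coeff (β i j hij) : ℤ) : ZMod p) -
        (((P i).coeff (β i j hij) : ℤ) : ZMod p) * (((P j).coeff (α i j hij) : ℤ) : ZMod p)) = 0 := by
        linear_combination (((P i).coeff (β i j hij) : ℤ) : ZMod p) * h1 -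
          (((P i).coeff (α i j hij) : ℤ) : ZMod p) * h2
      exact (mul_eq_zero.mp h5).resolve_right hmij
  -- a common non-root
  have hprod0 : (∏ i, Pp i) ≠ 0 := Finset.prod_ne_zero_iff.mpr fun i _ => hPp0 i
  have hproddeg : (∏ i, Pp i).natDegree < p := by
    refine lt_of_le_of_lt ((natDegree_prod_le _ _).trans ?_) hpk
    calc ∑ i, (Pp i).natDegree ≤ ∑ _i : Fin l, Δ := Finset.sum_le_sum fun i _ => hdeg _ (hPM i)
      _ = l * Δ := by simp
      _ ≤ k * Δ := Nat.mul_le_mul_right _ hlk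
  obtain ⟨x, hx⟩ : ∃ x : ZMod p, (∏ i, Pp i).eval x ≠ 0 := by
    by_contra hcon
    push Not at hcon
    have h1 : (Finset.univ : Finset (ZMod p)) ⊆ (∏ i, Pp i).roots.toFinset := by
      intro y _
      rw [Multiset.mem_toFinset, mem_roots hprod0]
      exact hcon y
    have h2 := Finset.card_le_card h1
    rw [Finset.card_univ, ZMod.card] at h2
    have h3 := (Multiset.toFinset_card_le _).trans (card_roots' (∏ i, Pp i))
    omega
  rw [eval_prod, Finset.prod_ne_zero_iff] at hx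
  refine ⟨x, ?_⟩
  have hsum : proj (ZMod p) q τ (MvPolynomial.map φ (∑ i, H i * P i ^ d)) =
      ∑ i, Hp i * Pp i ^ d := by
    rw [map_sum, map_sum]
    apply Finset.sum_congr rfl
    intro i _
    rw [map_mul, map_pow, map_mul, map_pow]
  rw [hsum]
  have hk1 : 1 ≤ k := by omega
  apply not_pow_dvd_sum_mod Δ Δ d B _ l Hp Pp hHp0 hPp0 (fun i => hdeg _ (hHM i))
    (fun i => hdeg _ (hPM i)) hnp' _ _ hl0 x (fun i => hx i (Finset.mem_univ i)) N
  · refine le_trans ?_ hN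
    apply Nat.add_le_add _ hlk
    obtain ⟨l', rfl⟩ : ∃ l', l = l' + 1 := ⟨l - 1, by omega⟩
    rw [Nat.add_sub_cancel]
    calc (l' + 1) * (Δ + l' * Δ) = (l' + 1) * (l' + 1) * Δ := by ring
      _ ≤ k * k * Δ := Nat.mul_le_mul_right _ (Nat.mul_le_mul hlk hlk)
  · intro a c ha1 ha2 hc hdvd
    apply hp4
    refine hdvd.trans ?_
    rw [abs_le] at hc
    have hmem : ((a, c) : ℤ × ℤ) ∈ (Finset.Icc (1 : ℤ) Δ) ×ˢ (Finset.Icc (-(B : ℤ)) B) := by
      rw [Finset.mem_product, Finset.mem_Icc, Finset.mem_Icc]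
      exact ⟨⟨ha1, ha2⟩, hc⟩
    exact Finset.dvd_prod_of_mem (fun x : ℤ × ℤ => (d : ℤ) * x.1 - x.2) hmem
  · rcases Nat.eq_zero_or_pos Δ with h0 | h0
    · -- then there can be at most one term
      have hone : l ≤ 1 := by
        by_contra hl2
        have hc : ∀ i, Pp i = C ((Pp i).coeff 0) := by
          intro i
          apply eq_C_of_natDegree_eq_zero
          have := hdeg _ (hPM i)
          rw [h0] at this
          exact Nat.le_zero.mp this
        have h11 := hnp' ⟨0, by omega⟩ ⟨1, by omega⟩ (by simp [Fin.ext_iff])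
        have h12 := h11 ((Pp ⟨1, by omega⟩).coeff 0) ((Pp ⟨0, by omega⟩).coeff 0) (by
          rw [hc ⟨0, by omega⟩, hc ⟨1, by omega⟩]
          simp only [coeff_C_zero]
          ring)
        apply hPp0 ⟨1, by omega⟩
        rw [hc ⟨1, by omega⟩, h12.1, C_0]
      omega
    · have : k * 1 * 1 ≤ k * (k + 1) * Δ := by
        apply Nat.mul_le_mul _ h0
        apply Nat.mul_le_mul_left
        omega
      omega
  · rw [hB]
    calc l * (Δ + l * Δ) = l * (l + 1) * Δ := by ring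
      _ ≤ k * (k + 1) * Δ := by
        apply Nat.mul_le_mul_right
        apply Nat.mul_le_mul hlk
        omega

end Pool.Agent.Helper35_Wr
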