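import Mathlib
import Pool.Agent.Helper35_Wr.BitTest

set_option autoImplicit false

/-!
Test in small finite rings for sums of high powers of sparse integer polynomials: final form.
-/

namespace Pool.Agent.Helper35_Wr

open Polynomial

lemma Sparse.map {R S' : Type*} [CommSemiring R] [CommSemiring S'] (φ : R →+* S') {n S D : ℕ}
    {f : MvPolynomial ℕ R} (hf : Sparse n S D f) : Sparse n S D (MvPolynomial.map φ f) where
  card_le := (Finset.card_le_card (MvPolynomial.support_map_subset _ _)).trans hf.card_le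
  exp_le := fun α hα => hf.exp_le α (MvPolynomial.support_map_subset _ _ hα)
  vars := fun α hα => hf.vars α (MvPolynomial.support_map_subset _ _ hα)

lemma natAbs_eval_le {n S D b q τ : ℕ} (hq : 0 < q) {f : MvPolynomial ℕ ℤ} (hf : Sparse n S D f)
    (hb : ∀ α, (f.coeff α).natAbs ≤ 2 ^ b) (t : ℕ) (ht : 1 ≤ t) :
    (MvPolynomial.eval (fun j => (t : ℤ) ^ (τ ^ j % q)) f).natAbs ≤ S * (2 ^ b * t ^ (n * D * q)) := by
  rw [← eval_proj, proj_eq_sum, eval_finset_sum]
  calc _ ≤ ∑ β ∈ f.support, (eval (t : ℤ) (C (f.coeff β) * X ^ wt q τ β)).natAbs :=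
        Int.natAbs_sum_le _ _
    _ ≤ ∑ β ∈ f.support, 2 ^ b * t ^ (n * D * q) := by
        apply Finset.sum_le_sum
        intro β hβ
        rw [eval_mul, eval_C, eval_pow, eval_X, Int.natAbs_mul, Int.natAbs_pow, Int.natAbs_natCast]
        apply Nat.mul_le_mul (hb β)
        exact Nat.pow_le_pow_right ht (wt_le hq (hf.exp_le β hβ) (hf.vars β hβ))
    _ = f.support.card * (2 ^ b * t ^ (n * D * q)) := by simp
    _ ≤ _ := Nat.mul_le_mul_right _ hf.card_le

lemma small_case (n k S D E b q d N L : ℕ) (hq : q.Prime) (hbig : 4 * n * k ^ 2 * S ^ 2 + D < q)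
    (h f : Fin k → MvPolynomial ℕ ℤ) (hf : ∀ i, Sparse n S D (f i)) (hh : ∀ i, Sparse n S E (h i))
    (hED : E ≤ D) (hfb : ∀ i α, ((f i).coeff α).natAbs ≤ 2 ^ b)
    (hhb : ∀ i α, ((h i).coeff α).natAbs ≤ 2 ^ b)
    (hd1 : 1 ≤ d) (hd : (k - 1) * (k - 1 + n * E * q) ≤ d)
    (hF : ∑ i, h i * f i ^ d ≠ 0) (hdB : d ≤ k * (k + 1) * (n * D * q)) (hN : 1 ≤ N)
    (hL : k + (S + b + (k * (k + 1) ^ 2 * (n * D * q) + k + 1) * (n * D * q)) *
      (k * (k + 1) * (n * D * q) + 1) ≤ L) :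
    ∃ τ < q, ∃ p, p.Prime ∧ p ≤ 64 * (L + 1) ^ 2 ∧ ∃ x : ZMod p, ¬ (X - C x) ^ N ∣
      proj (ZMod p) q τ (MvPolynomial.map (Int.castRingHom (ZMod p)) (∑ i, h i * f i ^ d)) := by
  set ψ := Int.castRingHom ℝ with hψ
  have hmap : MvPolynomial.map ψ (∑ i, h i * f i ^ d) =
      ∑ i, MvPolynomial.map ψ (h i) * MvPolynomial.map ψ (f i) ^ d := by
    rw [map_sum]
    apply Finset.sum_congr rfl
    intro i _
    rw [map_mul, map_pow]
  have hF' : ∑ i, MvPolynomial.map ψ (h i) * MvPolynomial.map ψ (f i) ^ d ≠ 0 := by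
    rw [← hmap]
    intro h0
    apply hF
    apply MvPolynomial.map_injective ψ Int.cast_injective
    rw [h0, map_zero]
  obtain ⟨τ, hτ, -, t, ht1, ht2, ht⟩ := real_hitting n k S D E q d hq hbig
    (fun i => MvPolynomial.map ψ (h i)) (fun i => MvPolynomial.map ψ (f i))
    (fun i => (hf i).map ψ) (fun i => (hh i).map ψ) hED hd1 hd hF'
  rw [← hmap] at ht
  set F := ∑ i, h i * f i ^ d with hFdef
  set V : ℤ := MvPolynomial.eval (fun j => (t : ℤ) ^ (τ ^ j % q)) F with hV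
  have hVR : MvPolynomial.eval (fun j => (t : ℝ) ^ (τ ^ j % q)) (MvPolynomial.map ψ F) = (V : ℝ) := by
    rw [MvPolynomial.eval_map, hV]
    have := MvPolynomial.eval₂_comp_left ψ (RingHom.id ℤ) (fun j => (t : ℤ) ^ (τ ^ j % q)) F
    rw [RingHom.comp_id] at this
    have e1 : MvPolynomial.eval₂ (RingHom.id ℤ) (fun j => (t : ℤ) ^ (τ ^ j % q)) F =
      MvPolynomial.eval (fun j => (t : ℤ) ^ (τ ^ j % q)) F := rfl
    rw [e1] at this
    have e2 : ψ (MvPolynomial.eval (fun j => (t : ℤ) ^ (τ ^ j % q)) F) =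
      ((MvPolynomial.eval (fun j => (t : ℤ) ^ (τ ^ j % q)) F : ℤ) : ℝ) := rfl
    rw [← e2, this]
    congr 1
    funext j
    simp [hψ]
  have hV0 : V ≠ 0 := by
    intro h0
    rw [hVR, h0, Int.cast_zero] at ht
    exact ht rfl
  set Δ := n * D * q with hΔ
  set U := k * (k + 1) ^ 2 * Δ + k + 1 with hU
  have hVb : V.natAbs ≤ 2 ^ L := by
    have h1 : V = ∑ i, MvPolynomial.eval (fun j => (t : ℤ) ^ (τ ^ j % q)) (h i) *
        MvPolynomial.eval (fun j => (t : ℤ) ^ (τ ^ j % q)) (f i) ^ d := by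
      rw [hV, hFdef, map_sum]
      apply Finset.sum_congr rfl
      intro i _
      rw [map_mul, map_pow]
    have h2 : S * (2 ^ b * t ^ Δ) ≤ 2 ^ (S + b + U * Δ) := by
      calc S * (2 ^ b * t ^ Δ) ≤ 2 ^ S * (2 ^ b * (2 ^ U) ^ Δ) := by
            apply Nat.mul_le_mul (Nat.lt_two_pow_self).le
            apply Nat.mul_le_mul_left
            apply Nat.pow_le_pow_left
            exact ht2.trans (Nat.lt_two_pow_self).le
        _ = 2 ^ (S + b + U * Δ) := by rw [← pow_mul, ← pow_add, ← pow_add, add_assoc]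
    rw [h1]
    calc _ ≤ ∑ i : Fin k, (MvPolynomial.eval (fun j => (t : ℤ) ^ (τ ^ j % q)) (h i) *
          MvPolynomial.eval (fun j => (t : ℤ) ^ (τ ^ j % q)) (f i) ^ d).natAbs :=
          Int.natAbs_sum_le _ _
      _ ≤ ∑ i : Fin k, (2 ^ (S + b + U * Δ)) ^ (d + 1) := by
          apply Finset.sum_le_sum
          intro i _
          rw [Int.natAbs_mul, Int.natAbs_pow, pow_succ, mul_comm]
          apply Nat.mul_le_mul
          · apply Nat.pow_le_pow_left
            exact (natAbs_eval_le hq.pos (hf i) (hfb i) t ht1).trans h2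
          · refine (natAbs_eval_le hq.pos (hh i) (hhb i) t ht1).trans (le_trans ?_ h2)
            apply Nat.mul_le_mul_left
            apply Nat.mul_le_mul_left
            apply Nat.pow_le_pow_right ht1
            rw [hΔ]
            exact Nat.mul_le_mul_right _ (Nat.mul_le_mul_left _ hED)
      _ = k * 2 ^ ((S + b + U * Δ) * (d + 1)) := by simp [← pow_mul]
      _ ≤ 2 ^ k * 2 ^ ((S + b + U * Δ) * (k * (k + 1) * Δ + 1)) := by
          apply Nat.mul_le_mul (Nat.lt_two_pow_self).le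
          apply Nat.pow_le_pow_right (by norm_num)
          apply Nat.mul_le_mul_left
          omega
      _ = 2 ^ (k + (S + b + U * Δ) * (k * (k + 1) * Δ + 1)) := by rw [← pow_add]
      _ ≤ 2 ^ L := Nat.pow_le_pow_right (by norm_num) hL
  obtain ⟨p, hp, hpL, hpd⟩ := Pool.Agent.Helper78_ACIT.exists_prime_not_dvd V.natAbs L
    (Int.natAbs_ne_zero.mpr hV0) hVb
  refine ⟨τ, hτ, p, hp, hpL, (t : ZMod p), ?_⟩
  intro hdvd
  have hdvd1 : (X - C (t : ZMod p)) ∣
      proj (ZMod p) q τ (MvPolynomial.map (Int.castRingHom (ZMod p)) F) :=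
    (dvd_pow_self _ (by omega)).trans hdvd
  rw [dvd_iff_isRoot, IsRoot, ← map_proj, eval_natCast_map, eval_proj] at hdvd1
  have h3 : ((V : ℤ) : ZMod p) = 0 := hdvd1
  rw [ZMod.intCast_zmod_eq_zero_iff_dvd] at h3
  exact hpd (Int.natCast_dvd.mp h3)

lemma exists_minor {f g : MvPolynomial ℕ ℤ} (hf : f ≠ 0) (hg : g ≠ 0)
    (h : ∀ a c : ℤ, a ≠ 0 → c ≠ 0 → MvPolynomial.C a * f ≠ MvPolynomial.C c * g) :
    ∃ α ∈ f.support ∪ g.support, ∃ β ∈ f.support ∪ g.support,
      f.coeff α * g.coeff β - f.coeff β * g.coeff α ≠ 0 := by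
  by_contra hcon
  push Not at hcon
  have hall : ∀ α β, f.coeff α * g.coeff β - f.coeff β * g.coeff α = 0 := by
    intro α β
    by_cases hα : α ∈ f.support ∪ g.support
    · by_cases hβ : β ∈ f.support ∪ g.support
      · exact hcon α hα β hβ
      · rw [Finset.mem_union, not_or, MvPolynomial.notMem_support_iff,
          MvPolynomial.notMem_support_iff] at hβ
        rw [hβ.1, hβ.2]; ring
    · rw [Finset.mem_union, not_or, MvPolynomial.notMem_support_iff,
        MvPolynomial.notMem_support_iff] at hα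
      rw [hα.1, hα.2]; ring
  obtain ⟨β, hβ⟩ := MvPolynomial.ne_zero_iff.mp hf
  have h1 : MvPolynomial.C (g.coeff β) * f = MvPolynomial.C (f.coeff β) * g := by
    ext α
    rw [MvPolynomial.coeff_C_mul, MvPolynomial.coeff_C_mul]
    linarith [hall α β]
  by_cases hgβ : g.coeff β = 0
  · rw [hgβ, MvPolynomial.C_0, zero_mul] at h1
    have := mul_ne_zero (by rw [Ne, MvPolynomial.C_eq_zero]; exact hβ : MvPolynomial.C (f.coeff β) ≠ 0) hg
    exact this h1.symm
  · exact h _ _ hgβ hβ h1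

lemma ineq_P (R : ℕ) (hR1 : 1 ≤ R) : 64 * (11 * R ^ 8 + 1) ^ 2 ≤ (96 * R ^ 8) ^ 2 := by
  have h1 : 1 ≤ R ^ 8 := Nat.one_le_pow _ _ hR1
  have h2 : 11 * R ^ 8 + 1 ≤ 12 * R ^ 8 := by omega
  calc 64 * (11 * R ^ 8 + 1) ^ 2 ≤ 64 * (12 * R ^ 8) ^ 2 :=
        Nat.mul_le_mul_left _ (Nat.pow_le_pow_left h2 2)
    _ = (96 * R ^ 8) ^ 2 := by ring

lemma ineq_kk {k Δ R : ℕ} (hk : k + 1 ≤ R) (hΔ : Δ ≤ R) : k * (k + 1) * Δ ≤ R ^ 3 := by
  calc k * (k + 1) * Δ ≤ R * R * R := by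
        apply Nat.mul_le_mul (Nat.mul_le_mul _ _) <;> omega
    _ = R ^ 3 := by ring

lemma ineq_large {k Δ b R : ℕ} (hR : Δ + k + b + 1 ≤ R) :
    (k * Δ) * (k * Δ) + k * k * (2 * b + 1) + k * (k + 2 * b) +
        Δ * (2 * (k * (k + 1) * Δ) + 1) * (b + Δ + k * (k + 1) * Δ) ≤ 11 * R ^ 8 := by
  have hR1 : 1 ≤ R := by omega
  have hpw : ∀ m, m ≤ 8 → R ^ m ≤ R ^ 8 := fun m hm => Nat.pow_le_pow_right hR1 hm
  have hkk : k * (k + 1) * Δ ≤ R ^ 3 := ineq_kk (by omega) (by omega)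
  generalize k * (k + 1) * Δ = B at hkk
  have h1 : (k * Δ) * (k * Δ) ≤ R ^ 8 := by
    calc (k * Δ) * (k * Δ) ≤ (R * R) * (R * R) := by
          apply Nat.mul_le_mul <;> apply Nat.mul_le_mul <;> omega
      _ = R ^ 4 := by ring
      _ ≤ R ^ 8 := hpw 4 (by norm_num)
  have h2 : k * k * (2 * b + 1) ≤ 2 * R ^ 8 := by
    calc k * k * (2 * b + 1) ≤ R * R * (2 * R) := by
          apply Nat.mul_le_mul (Nat.mul_le_mul _ _) <;> omega
      _ = 2 * R ^ 3 := by ring
      _ ≤ 2 * R ^ 8 := Nat.mul_le_mul_left _ (hpw 3 (by norm_num))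
  have h3 : k * (k + 2 * b) ≤ 2 * R ^ 8 := by
    calc k * (k + 2 * b) ≤ R * (2 * R) := by
          apply Nat.mul_le_mul <;> omega
      _ = 2 * R ^ 2 := by ring
      _ ≤ 2 * R ^ 8 := Nat.mul_le_mul_left _ (hpw 2 (by norm_num))
  have hR3 : 1 ≤ R ^ 3 := Nat.one_le_pow _ _ hR1
  have hRR3 : R ≤ R ^ 3 := by
    calc R = R ^ 1 := (pow_one R).symm
      _ ≤ R ^ 3 := Nat.pow_le_pow_right hR1 (by norm_num)
  have h4 : Δ * (2 * B + 1) * (b + Δ + B) ≤ 6 * R ^ 8 := by
    calc _ ≤ R * (3 * R ^ 3) * (2 * R ^ 3) := by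
          apply Nat.mul_le_mul (Nat.mul_le_mul _ _) <;> omega
      _ = 6 * R ^ 7 := by ring
      _ ≤ 6 * R ^ 8 := Nat.mul_le_mul_left _ (hpw 7 (by norm_num))
  omega

lemma ineq_small {k Δ b S R : ℕ} (hR : Δ + k + S + b + 1 ≤ R) :
    k + (S + b + (k * (k + 1) ^ 2 * Δ + k + 1) * Δ) * (k * (k + 1) * Δ + 1) ≤ 11 * R ^ 8 := by
  have hR1 : 1 ≤ R := by omega
  have hkk : k * (k + 1) * Δ ≤ R ^ 3 := ineq_kk (by omega) (by omega)
  generalize k * (k + 1) * Δ = B at hkk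
  have hR3 : 1 ≤ R ^ 3 := Nat.one_le_pow _ _ hR1
  have hR4 : R ≤ R ^ 4 := by
    calc R = R ^ 1 := (pow_one R).symm
      _ ≤ R ^ 4 := Nat.pow_le_pow_right hR1 (by norm_num)
  have hR5 : R ≤ R ^ 5 := by
    calc R = R ^ 1 := (pow_one R).symm
      _ ≤ R ^ 5 := Nat.pow_le_pow_right hR1 (by norm_num)
  have h1 : k * (k + 1) ^ 2 * Δ + k + 1 ≤ 2 * R ^ 4 := by
    have : k * (k + 1) ^ 2 * Δ ≤ R ^ 4 := by
      calc k * (k + 1) ^ 2 * Δ ≤ R * R ^ 2 * R := by
            apply Nat.mul_le_mul (Nat.mul_le_mul _ (Nat.pow_le_pow_left _ 2)) <;> omega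
        _ = R ^ 4 := by ring
    omega
  generalize k * (k + 1) ^ 2 * Δ + k + 1 = U at h1
  have h2 : U * Δ ≤ 2 * R ^ 5 := by
    calc _ ≤ 2 * R ^ 4 * R := Nat.mul_le_mul h1 (by omega)
      _ = 2 * R ^ 5 := by ring
  have h3 : S + b + U * Δ ≤ 3 * R ^ 5 := by omega
  have h4 : (S + b + U * Δ) * (B + 1) ≤ 6 * R ^ 8 := by
    calc _ ≤ 3 * R ^ 5 * (2 * R ^ 3) := Nat.mul_le_mul h3 (by omega)
      _ = 6 * R ^ 8 := by ring
  have h5 : R ≤ R ^ 8 := by
    calc R = R ^ 1 := (pow_one R).symm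
      _ ≤ R ^ 8 := Nat.pow_le_pow_right hR1 (by norm_num)
  omega

theorem bit_hitting (n k S D E b q d : ℕ) (hq : q.Prime) (hbig : 4 * n * k ^ 2 * S ^ 2 + D < q)
    (h f : Fin k → MvPolynomial ℕ ℤ) (hf : ∀ i, Sparse n S D (f i)) (hh : ∀ i, Sparse n S E (h i))
    (hED : E ≤ D) (hfb : ∀ i α, |(f i).coeff α| ≤ 2 ^ b)
    (hhb : ∀ i α, |(h i).coeff α| ≤ 2 ^ b)
    (hprop : ∀ i j, ∀ a c : ℤ, a ≠ 0 → c ≠ 0 → MvPolynomial.C a * f i = MvPolynomial.C c * f j →
      f i = f j ∨ f i = - f j)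
    (hd1 : 1 ≤ d) (hd : (k - 1) * (k - 1 + n * E * q) ≤ d) (hdb : d ≤ 2 ^ b)
    (hF : ∑ i, h i * f i ^ d ≠ 0) :
    ∃ τ < q, ∃ p, p.Prime ∧ p ≤ (96 * (n * D * q + k + S + b + 1) ^ 8) ^ 2 ∧ ∃ x : ZMod p,
      ¬ (X - C x) ^ (k ^ 2 * (n * D * q) + k) ∣
        proj (ZMod p) q τ (MvPolynomial.map (Int.castRingHom (ZMod p)) (∑ i, h i * f i ^ d)) := by
  classical
  set Δ := n * D * q with hΔ
  set R := Δ + k + S + b + 1 with hR
  have hk1 : 1 ≤ k := by
    rcases Nat.eq_zero_or_pos k with h0 | h0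
    · subst h0
      exact absurd (by simp) hF
    · exact h0
  have hR1 : 1 ≤ R := by omega
  have hP : 64 * (11 * R ^ 8 + 1) ^ 2 ≤ (96 * R ^ 8) ^ 2 := ineq_P R hR1
  have hfb' : ∀ i α, ((f i).coeff α).natAbs ≤ 2 ^ b := by
    intro i α
    have := hfb i α
    rw [Int.abs_eq_natAbs] at this
    exact_mod_cast this
  have hhb' : ∀ i α, ((h i).coeff α).natAbs ≤ 2 ^ b := by
    intro i α
    have := hhb i α
    rw [Int.abs_eq_natAbs] at this
    exact_mod_cast this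
  rcases Nat.lt_or_ge (k * (k + 1) * Δ) d with hlarge | hsmall
  · obtain ⟨τ, hτ, hinj⟩ := exists_tau_family hq hbig hf hh hED
    set M : Finset (ℕ →₀ ℕ) := Finset.univ.biUnion fun i => (f i).support ∪ (h i).support with hM
    have hfM : ∀ i, (f i).support ⊆ M := fun i => Finset.subset_union_left.trans
      (Finset.subset_biUnion_of_mem (fun i => (f i).support ∪ (h i).support) (Finset.mem_univ i))
    have hhM : ∀ i, (h i).support ⊆ M := fun i => Finset.subset_union_right.trans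
      (Finset.subset_biUnion_of_mem (fun i => (f i).support ∪ (h i).support) (Finset.mem_univ i))
    obtain ⟨s', -, h', e1, e2, e3, e4, e5, e6⟩ := merge ({1, -1} : Set ℤ) Int.natAbs
      Int.natAbs_add_le d hd1 (by
        rintro c (hc | hc) a
        · rw [hc, one_pow, one_mul]
        · rw [Set.mem_singleton_iff] at hc
          rw [hc, Int.natAbs_mul, Int.natAbs_pow]
          simp) f M Finset.univ h (fun i _ => hhM i)
    refine ⟨τ, hτ, ?_⟩
    set l := s'.card with hl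
    have hlk : l ≤ k := by
      rw [hl]
      exact (Finset.card_le_univ _).trans (by simp)
    have hl0 : 0 < l := by
      rw [hl, Finset.card_pos]
      by_contra hne
      rw [Finset.not_nonempty_iff_eq_empty] at hne
      rw [hne, Finset.sum_empty] at e6
      exact hF e6.symm
    set e : Fin l ≃ s' := s'.equivFin.symm with he
    have hsum : ∑ i, h i * f i ^ d = ∑ j : Fin l, h' (e j) * f (e j) ^ d := by
      rw [← e6, ← Finset.sum_coe_sort s', ← e.sum_comp]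
    rw [hsum]
    have hLL : (k * Δ) * (k * Δ) + k * k * (2 * b + 1) + k * (k + 2 * b) +
        Δ * (2 * (k * (k + 1) * Δ) + 1) * (b + Δ + k * (k + 1) * Δ) ≤ 11 * R ^ 8 :=
      ineq_large (by omega)
    obtain ⟨p, hp, hpL, x, hx⟩ := large_case k Δ d b q τ M hinj l hl0 hlk (fun j => h' (e j))
      (fun j => f (e j)) (fun j => e1 _ (e j).2) (fun j => hfM _)
      (by
        intro α hα
        rw [hM, Finset.mem_biUnion] at hα
        obtain ⟨i, -, hα⟩ := hα
        rw [Finset.mem_union] at hα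
        rcases hα with hα | hα
        · exact wt_le hq.pos ((hf i).exp_le α hα) ((hf i).vars α hα)
        · exact wt_le hq.pos (fun j => ((hh i).exp_le α hα j).trans hED) ((hh i).vars α hα))
      (fun j => e2 _ (e j).2) (fun j => e3 _ (e j).2)
      (by
        intro j α
        calc ((h' (e j)).coeff α).natAbs ≤ ∑ i ∈ s', ((h' i).coeff α).natAbs :=
              Finset.single_le_sum (f := fun i => ((h' i).coeff α).natAbs)
                (fun _ _ => Nat.zero_le _) (e j).2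
          _ ≤ ∑ i : Fin k, ((h i).coeff α).natAbs := e5 α
          _ ≤ ∑ i : Fin k, 2 ^ b := Finset.sum_le_sum fun i _ => hhb' i α
          _ = k * 2 ^ b := by simp
          _ ≤ 2 ^ k * 2 ^ b := Nat.mul_le_mul_right _ (Nat.lt_two_pow_self).le
          _ = 2 ^ (k + b) := by rw [pow_add])
      (fun j α => hfb' _ α)
      (by
        intro i j hij
        have hne : (e i : Fin k) ≠ e j := fun h0 => hij (e.injective (Subtype.ext h0))
        have hm := exists_minor (e3 _ (e i).2) (e3 _ (e j).2) (by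
          intro a c ha hc heq
          rcases hprop _ _ a c ha hc heq with h1 | h1
          · apply e4 _ (e i).2 _ (e j).2 hne
            exact ⟨1, Or.inl rfl, by rw [MvPolynomial.C_1, one_mul, h1]⟩
          · apply e4 _ (e i).2 _ (e j).2 hne
            exact ⟨-1, Or.inr rfl, by rw [MvPolynomial.C_neg, MvPolynomial.C_1, h1]; ring⟩)
        obtain ⟨α, hα, β, hβ, hm⟩ := hm
        exact ⟨α, Finset.union_subset (hfM _) (hfM _) hα, β,
          Finset.union_subset (hfM _) (hfM _) hβ, hm⟩)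
      hlarge hdb (11 * R ^ 8) hLL (k ^ 2 * Δ + k) (by rw [sq])
    exact ⟨p, hp, hpL.trans hP, x, hx⟩
  · have hLL : k + (S + b + (k * (k + 1) ^ 2 * Δ + k + 1) * Δ) * (k * (k + 1) * Δ + 1) ≤
        11 * R ^ 8 := ineq_small (by omega)
    obtain ⟨τ, hτ, p, hp, hpL, x, hx⟩ := small_case n k S D E b q d (k ^ 2 * Δ + k) (11 * R ^ 8) hq hbig
      h f hf hh hED hfb' hhb' hd1 hd hF hsmall (by omega) hLL
    exact ⟨τ, hτ, p, hp, hpL.trans hP, x, hx⟩

end Pool.Agent.Helper35_Wr
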