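import Mathlib
import Pool.Agent.Helper78_ACIT.Circuit
import Pool.Agent.Helper35_Wr.BitFinal

set_option autoImplicit false

/-!
Deterministic identity test for circuits whose output is a sum of high powers of sparse
polynomials.
-/

namespace Pool.Agent.Results.MP_b2b50d_lc.HighPowerSums

open Polynomial Pool.Agent.Helper78_ACIT

/-- `f` has at most `S` monomials; they involve only the variables `x_0, ..., x_(n-1)`, all with
exponents at most `D`, and have coefficients at most `2 ^ b` in absolute value. -/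
def Small (n S D b : ℕ) (f : MvPolynomial ℕ ℤ) : Prop :=
  f.support.card ≤ S ∧ ∀ α ∈ f.support, (∀ j, α j ≤ D) ∧ (∀ j, n ≤ j → α j = 0) ∧
    |f.coeff α| ≤ 2 ^ b

/-- The value of the circuit `G` at the point `x_j = X ^ (τ ^ j mod q)` in the finite ring
`F_p[X] / (X - c) ^ N`. -/
noncomputable def testValue (q τ p c N : ℕ) (G : List Gate) :
    AdjoinRoot ((X - C (c : ZMod p)) ^ N : (ZMod p)[X]) :=
  out (fun j => AdjoinRoot.root _ ^ (τ ^ j % q)) G

lemma testValue_eq (q τ p c N : ℕ) (G : List Gate) :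
    testValue q τ p c N G = AdjoinRoot.mk _
      (Helper35_Wr.proj (ZMod p) q τ (MvPolynomial.map (Int.castRingHom (ZMod p)) (poly G))) := by
  have h1 := out_map (AdjoinRoot.mk ((X - C (c : ZMod p)) ^ N : (ZMod p)[X]))
    (fun j => (X : (ZMod p)[X]) ^ (τ ^ j % q)) G
  have h2 : (fun j => AdjoinRoot.mk ((X - C (c : ZMod p)) ^ N : (ZMod p)[X])
      ((X : (ZMod p)[X]) ^ (τ ^ j % q))) =
      fun j => AdjoinRoot.root ((X - C (c : ZMod p)) ^ N : (ZMod p)[X]) ^ (τ ^ j % q) := by
    funext j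
    rw [map_pow, AdjoinRoot.mk_X]
  rw [h2] at h1
  unfold testValue
  rw [← h1, out_eq_eval]
  congr 1
  unfold Helper35_Wr.proj
  rw [MvPolynomial.aeval_def, MvPolynomial.eval₂_map]
  congr 1

/-- Let `G` be an arithmetic circuit whose output is `∑ i < k, h_i * f_i ^ d` for some sparse
polynomials `h_i, f_i` of moderate degree and with moderate coefficients. If
`d ≥ (k - 1) (k - 1 + n E q)`, and proportional `f_i, f_j` are equal up to sign, then `G` computes
zero if and only if it vanishes at polynomially many explicit points of polynomially many explicit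
small finite rings. -/
theorem result (n k S D E b d q : ℕ) (hq : q.Prime) (hbig : 4 * n * k ^ 2 * S ^ 2 + D < q)
    (hED : E ≤ D) (hd : 1 ≤ d) (hk : (k - 1) * (k - 1 + n * E * q) ≤ d) (hdb : d ≤ 2 ^ b)
    (G : List Gate) (hG : WellFormed G) (h f : Fin k → MvPolynomial ℕ ℤ)
    (hh : ∀ i, Small n S E b (h i)) (hf : ∀ i, Small n S D b (f i))
    (hprop : ∀ i j, ∀ u v : ℤ, u ≠ 0 → v ≠ 0 → MvPolynomial.C u * f i = MvPolynomial.C v * f j →
      f i = f j ∨ f i = - f j)
    (hpoly : poly G = ∑ i, h i * f i ^ d) :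
    G ∈ ACIT ↔ ∀ τ < q, ∀ p, p.Prime → p ≤ (96 * (n * D * q + k + S + b + 1) ^ 8) ^ 2 →
      ∀ c < p, testValue q τ p c (k ^ 2 * (n * D * q) + k) G = 0 := by
  constructor
  · rintro ⟨-, h0⟩ τ _ p _ _ c _
    rw [testValue_eq, h0, map_zero, map_zero, map_zero]
  · intro htest
    refine ⟨hG, ?_⟩
    by_contra hne
    rw [hpoly] at hne
    have hsp : ∀ {S D : ℕ} {f : MvPolynomial ℕ ℤ}, Small n S D b f → Helper35_Wr.Sparse n S D f :=
      fun hf => ⟨hf.1, fun α hα j => (hf.2 α hα).1 j, fun α hα j hj => (hf.2 α hα).2.1 j hj⟩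
    have hcb : ∀ {S D : ℕ} {f : MvPolynomial ℕ ℤ}, Small n S D b f → ∀ α, |f.coeff α| ≤ 2 ^ b := by
      intro S D f hf α
      by_cases hα : α ∈ f.support
      · exact (hf.2 α hα).2.2
      · rw [MvPolynomial.notMem_support_iff.mp hα, abs_zero]
        positivity
    obtain ⟨τ, hτ, p, hp, hpP, x, hx⟩ := Helper35_Wr.bit_hitting n k S D E b q d hq hbig h f
      (fun i => hsp (hf i)) (fun i => hsp (hh i)) hED (fun i => hcb (hf i)) (fun i => hcb (hh i))
      hprop hd hk hdb hne
    have : Fact p.Prime := ⟨hp⟩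
    have h1 := htest τ hτ p hp hpP x.val (ZMod.val_lt x)
    rw [testValue_eq, AdjoinRoot.mk_eq_zero, ZMod.natCast_zmod_val, hpoly] at h1
    exact hx h1

end Pool.Agent.Results.MP_b2b50d_lc.HighPowerSums
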